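import Pool.Agent.D0H55.RC.Near

set_option autoImplicit false
set_option linter.unusedSectionVars false

/-!
# Rank two: the abstract theorem
-/

namespace Pool.Agent.D0H55.RC

open Pool.Agent.H721R2 Pool.Agent.H779R2.An Pool.Agent.H779R2.An.TauAux Pool.Agent.Y321.PD
  Pool.Agent.H789R2.AN Pool.Agent.Y321.PJ
open Filter Topology Set Metric

section lin

variable {V W : Type*} [NormedAddCommGroup V] [NormedSpace ℝ V] [FiniteDimensional ℝ V]
  [NormedAddCommGroup W] [NormedSpace ℝ W] [FiniteDimensional ℝ W]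

theorem trace_conj_eq (e : V ≃ₗ[ℝ] W) (T : V →ₗ[ℝ] V) :
    LinearMap.trace ℝ W (e.conj T) = LinearMap.trace ℝ V T := LinearMap.trace_conj' T e

theorem det_conj_eq (e : V ≃ₗ[ℝ] W) (T : V →ₗ[ℝ] V) :
    LinearMap.det (e.conj T) = LinearMap.det T := by
  rw [LinearEquiv.conj_apply]
  exact LinearMap.det_conj T e

theorem eqMod_conj (e : V ≃ₗ[ℝ] W) {T : V →ₗ[ℝ] V} (h : EqMod T) : EqMod (e.conj T) := by
  unfold EqMod at *
  rwa [trace_conj_eq, det_conj_eq]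

theorem sc_conj (e : V ≃ₗ[ℝ] W) {T : V →ₗ[ℝ] V} (h : Sc T) : Sc (e.conj T) := by
  obtain ⟨c, hc⟩ := h
  refine ⟨c, fun v => ?_⟩
  rw [LinearEquiv.conj_apply_apply, hc, map_smul, LinearEquiv.apply_symm_apply]

theorem rf_conj (e : V ≃ₗ[ℝ] W) {T : V →ₗ[ℝ] V} (h : Rf T) : Rf (e.conj T) := by
  unfold Rf at *
  rwa [trace_conj_eq, det_conj_eq]

theorem eqMod_of_sc (h2 : Module.finrank ℝ V = 2) {T : V →ₗ[ℝ] V} (h : Sc T) : EqMod T := by
  obtain ⟨c, hc⟩ := h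
  have e : T = c • LinearMap.id := by
    ext v
    rw [hc]; rfl
  unfold EqMod
  rw [e, map_smul, LinearMap.det_smul, LinearMap.trace_id, h2, LinearMap.det_id, mul_one,
    abs_of_nonneg (sq_nonneg c), smul_eq_mul]
  push_cast
  nlinarith

theorem eqMod_of_rf {T : V →ₗ[ℝ] V} (h : Rf T) : EqMod T := by
  unfold EqMod
  rw [h.1, zero_pow two_ne_zero]
  positivity

theorem eqMod_of_ell {T : V →ₗ[ℝ] V} (h : Ell T) : EqMod T := by
  unfold EqMod
  unfold Ell at h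
  have := le_abs_self (LinearMap.det T)
  linarith

end lin

variable {X E : Type*} [MetricSpace X] [CompactSpace X] [NormedAddCommGroup E]
  [InnerProductSpace ℝ E] [FiniteDimensional ℝ E] {S : HypSys X E}

/-- From the distortion of a conjugate to the distortion of the return map. -/
theorem qa_of_conj {V : Submodule ℝ E} {k : ℕ} {c : X} {hc : S.g^[k] c = c}
    {J : V ≃ₗ[ℝ] S.Vu c} (hJ : Nr (1 / 4) J) {K : ℝ} (hK : 0 ≤ K)
    (h : BD K (J.symm.conj (retS S k c hc))) : QA S k c (4 * K) := by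
  intro v hv w hw
  set v' : S.Vu c := ⟨v, hv⟩ with hv'
  set w' : S.Vu c := ⟨w, hw⟩ with hw'
  set T := retS S k c hc with hT
  have h1 := h (J.symm v') (J.symm w')
  rw [LinearEquiv.conj_apply_apply, LinearEquiv.conj_apply_apply, LinearEquiv.symm_symm,
    LinearEquiv.apply_symm_apply, LinearEquiv.apply_symm_apply] at h1
  have a1 := (hJ.bounds (J.symm (T v'))).1
  have a2 := (hJ.bounds (J.symm w')).1
  have a3 := (hJ.bounds (J.symm (T w'))).2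
  have a4 := (hJ.bounds (J.symm v')).2
  rw [LinearEquiv.apply_symm_apply] at a1 a2 a3 a4
  have e1 : (T v' : E) = Dn S k c v := rfl
  have e2 : (T w' : E) = Dn S k c w := rfl
  rw [e1] at a1
  rw [e2] at a3
  change ‖(J.symm (T v') : E)‖ * ‖(J.symm w' : E)‖ ≤
    K * (‖(J.symm (T w') : E)‖ * ‖(J.symm v' : E)‖) at h1
  set b1 := ‖(J.symm (T v') : E)‖ with hb1
  set b2 := ‖(J.symm w' : E)‖ with hb2
  set b3 := ‖(J.symm (T w') : E)‖ with hb3
  set b4 := ‖(J.symm v' : E)‖ with hb4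
  have p1 : 0 ≤ b1 := norm_nonneg _
  have p2 : 0 ≤ b2 := norm_nonneg _
  have p3 : 0 ≤ b3 := norm_nonneg _
  have p4 : 0 ≤ b4 := norm_nonneg _
  have a2' : ‖w‖ ≤ (1 + 1 / 4) * b2 := a2
  have a4' : (1 - 1 / 4) * b4 ≤ ‖v‖ := a4
  have c3 : b3 ≤ 4 / 3 * ‖Dn S k c w‖ := by linarith
  have c4 : b4 ≤ 4 / 3 * ‖v‖ := by linarith
  have n1 : 0 ≤ ‖Dn S k c w‖ := norm_nonneg _
  calc ‖Dn S k c v‖ * ‖w‖ ≤ ((1 + 1 / 4) * b1) * ((1 + 1 / 4) * b2) :=
        mul_le_mul a1 a2' (norm_nonneg _) (by positivity)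
    _ = 25 / 16 * (b1 * b2) := by ring
    _ ≤ 25 / 16 * (K * (b3 * b4)) := by linarith
    _ ≤ 25 / 16 * (K * ((4 / 3 * ‖Dn S k c w‖) * (4 / 3 * ‖v‖))) := by
        apply mul_le_mul_of_nonneg_left _ (by norm_num)
        apply mul_le_mul_of_nonneg_left _ hK
        exact mul_le_mul c3 c4 p4 (by positivity)
    _ = 25 / 9 * (K * (‖Dn S k c w‖ * ‖v‖)) := by ring
    _ ≤ 4 * (K * (‖Dn S k c w‖ * ‖v‖)) :=
        mul_le_mul_of_nonneg_right (by norm_num) (by positivity)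
    _ = 4 * K * (‖Dn S k c w‖ * ‖v‖) := by ring

/-- Bounded distortion of the loops near one periodic point gives bounded distortion. -/
theorem qc_of_near (S : HypSys X E) {Q r : ℝ} (hQ : Quad S Q r) (hne : Nonempty X)
    (htr : ∀ U V : Set X, IsOpen U → U.Nonempty → IsOpen V → V.Nonempty →
      ∃ n : ℕ, (S.g^[n] '' U ∩ V).Nonempty) {B : ℝ} (hB : 0 ≤ B)
    (hsub : ∀ (n : ℕ) (x : X), QA S n x (B * (3 / 2) ^ n)) (p₀ : X) {ρ K : ℝ} (hρ : 0 < ρ)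
    (hK : 0 ≤ K) (hnear : ∀ (N : ℕ) (c : X), 1 ≤ N → S.g^[N] c = c → dist c p₀ ≤ ρ →
      QA S N c K) : ∃ K, QC S K := by
  obtain ⟨c₁, hc₁, hcmp⟩ := compare S hQ hB hsub (1 / 2) (by norm_num)
  obtain ⟨N₀, hN₀⟩ := visit S hne htr p₀ c₁ ρ hc₁ hρ
  have hLu := S.one_le_Lu
  have hL0 : 0 ≤ S.Lu := by linarith
  set K₂ := S.Lu ^ N₀ * K * S.Lu ^ N₀ with hK₂
  have hK₂0 : 0 ≤ K₂ := by positivity
  refine ⟨9 * K₂, fun n x v hv w hw => ?_⟩
  obtain ⟨t, m, q, ht, hm, h1, hq, hqp, hd⟩ := hN₀ x n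
  have h2 := hnear (t + n + m) q h1 hq hqp
  have h3 : QA S (m + (n + t)) q K := by
    have e : m + (n + t) = t + n + m := by omega
    rw [e]; exact h2
  have h4 := QA.mid h3 (QA.triv S t q) (QA.triv S m _)
  have h5 : QA S n (S.g^[t] q) K₂ := by
    refine h4.mono ?_
    have i1 : S.Lu ^ t ≤ S.Lu ^ N₀ := pow_le_pow_right₀ hLu ht
    have i2 : S.Lu ^ m ≤ S.Lu ^ N₀ := pow_le_pow_right₀ hLu hm
    exact mul_le_mul (mul_le_mul_of_nonneg_right i1 hK) i2 (by positivity) (by positivity)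
  obtain ⟨A, A', hA, hA', hAA⟩ := hcmp c₁ le_rfl n x (S.g^[t] q) hd
  have key := h5 (A v) (hA v hv).1 (A w) (hA w hw).1
  rw [hAA v hv, hAA w hw] at key
  have bnd : ∀ (u z : E), ‖z - u‖ ≤ 1 / 2 * ‖u‖ → ‖z‖ ≤ 3 / 2 * ‖u‖ ∧ ‖u‖ ≤ 2 * ‖z‖ := by
    intro u z h
    have i1 := norm_add_le (z - u) u
    rw [sub_add_cancel] at i1
    have i2 := norm_sub_le z (z - u)
    rw [sub_sub_cancel] at i2
    constructor <;> linarith
  have a1 := (bnd _ _ (hA' _ (Dn_mem S n x hv)).2).2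
  have a2 := (bnd _ _ (hA w hw).2).2
  have a3 := (bnd _ _ (hA' _ (Dn_mem S n x hw)).2).1
  have a4 := (bnd _ _ (hA v hv).2).1
  calc ‖Dn S n x v‖ * ‖w‖ ≤ (2 * ‖A' (Dn S n x v)‖) * (2 * ‖A w‖) :=
        mul_le_mul a1 a2 (norm_nonneg _) (by positivity)
    _ = 4 * (‖A' (Dn S n x v)‖ * ‖A w‖) := by ring
    _ ≤ 4 * (K₂ * (‖A' (Dn S n x w)‖ * ‖A v‖)) := mul_le_mul_of_nonneg_left key (by norm_num)
    _ ≤ 4 * (K₂ * ((3 / 2 * ‖Dn S n x w‖) * (3 / 2 * ‖v‖))) := by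
        apply mul_le_mul_of_nonneg_left _ (by norm_num)
        apply mul_le_mul_of_nonneg_left _ hK₂0
        exact mul_le_mul a3 a4 (norm_nonneg _) (by positivity)
    _ = 9 * K₂ * (‖Dn S n x w‖ * ‖v‖) := by ring

/-- Loops near a periodic point with non-real eigenvalues. -/
theorem near_ell (S : HypSys X E) {Q r : ℝ} (hQ : Quad S Q r) {B : ℝ} (hB : 0 ≤ B)
    (hsub : ∀ (n : ℕ) (x : X), QA S n x (B * (3 / 2) ^ n))
    (hrk : ∀ x, Module.finrank ℝ (S.Vu x) = 2) {k₀ : ℕ} {p₀ : X} (hk₀ : 1 ≤ k₀)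
    (hp₀ : S.g^[k₀] p₀ = p₀) (hell : Ell (retS S k₀ p₀ hp₀))
    (hper : ∀ (k : ℕ) (p : X) (hp : S.g^[k] p = p), 1 ≤ k → EqMod (retS S k p hp)) :
    ∃ ρ > 0, ∃ K : ℝ, 0 ≤ K ∧ ∀ (N : ℕ) (c : X), 1 ≤ N → S.g^[N] c = c → dist c p₀ ≤ ρ →
      QA S N c K := by
  obtain ⟨η, hη, K, hK, hlin⟩ := lin_ell (hrk p₀) hell
  obtain ⟨ρ, hρ, hloop⟩ := near_loop S hQ hB hsub hrk hk₀ hp₀ η hη
  refine ⟨ρ, hρ, 4 * K, by positivity, fun N c hN hc hd => ?_⟩
  obtain ⟨c', hc', J, J', G, nJ, hG, hJ'⟩ := hloop N c hc hN hd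
  refine qa_of_conj nJ hK (hlin G _ hG (eqMod_conj _ (hper N c hc hN)) ?_)
  rw [← hJ']
  exact eqMod_conj _ (hper (N + k₀) c' hc' (by omega))

/-- Loops near a periodic point with eigenvalues `a`, `-a`. -/
theorem near_rf (S : HypSys X E) {Q r : ℝ} (hQ : Quad S Q r) {B : ℝ} (hB : 0 ≤ B)
    (hsub : ∀ (n : ℕ) (x : X), QA S n x (B * (3 / 2) ^ n))
    (hrk : ∀ x, Module.finrank ℝ (S.Vu x) = 2) {k₀ : ℕ} {p₀ : X} (hk₀ : 1 ≤ k₀)
    (hp₀ : S.g^[k₀] p₀ = p₀) (hrf : Rf (retS S k₀ p₀ hp₀))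
    (hper : ∀ (k : ℕ) (p : X) (hp : S.g^[k] p = p), 1 ≤ k →
      Sc (retS S k p hp) ∨ Rf (retS S k p hp)) :
    ∃ ρ > 0, ∃ K : ℝ, 0 ≤ K ∧ ∀ (N : ℕ) (c : X), 1 ≤ N → S.g^[N] c = c → dist c p₀ ≤ ρ →
      QA S N c K := by
  obtain ⟨η, hη, K, hK, hlin⟩ := lin_rf hrf.2
  obtain ⟨ρ, hρ, hloop⟩ := near_loop S hQ hB hsub hrk hk₀ hp₀ η hη
  refine ⟨ρ, hρ, 4 * K, by positivity, fun N c hN hc hd => ?_⟩
  obtain ⟨c', hc', J, J', G, nJ, hG, hJ'⟩ := hloop N c hc hN hd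
  refine qa_of_conj (hc := hc) nJ hK (hlin G (J.symm.conj (retS S N c hc)) hG ?_ ?_)
  · rcases hper N c hc hN with h | h
    · exact Or.inl (sc_conj _ h)
    · exact Or.inr (rf_conj _ h)
  · rw [← hJ']
    rcases hper (N + k₀) c' hc' (by omega) with h | h
    · exact Or.inl (sc_conj _ h)
    · exact Or.inr (rf_conj _ h)

/-- **Rank two, abstract theorem.**  A transitive system with an unstable bundle of rank two and
slowly growing distortion is uniformly quasiconformal if the eigenvalues of the return maps have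
the same modulus and one of the following holds: at one periodic point they are not real; or all
return maps are diagonalizable over the complex numbers. -/
theorem qc_rank_two (S : HypSys X E) {Q r : ℝ} (hQ : Quad S Q r) (hne : Nonempty X)
    (htr : ∀ U V : Set X, IsOpen U → U.Nonempty → IsOpen V → V.Nonempty →
      ∃ n : ℕ, (S.g^[n] '' U ∩ V).Nonempty) {B : ℝ} (hB : 0 ≤ B)
    (hsub : ∀ (n : ℕ) (x : X), QA S n x (B * (3 / 2) ^ n))
    (hrk : ∀ x, Module.finrank ℝ (S.Vu x) = 2)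
    (hper : ((∃ (k : ℕ) (p : X) (hp : S.g^[k] p = p), 1 ≤ k ∧ Ell (retS S k p hp)) ∧
        ∀ (k : ℕ) (p : X) (hp : S.g^[k] p = p), 1 ≤ k → EqMod (retS S k p hp)) ∨
      ∀ (k : ℕ) (p : X) (hp : S.g^[k] p = p), 1 ≤ k →
        Ell (retS S k p hp) ∨ Sc (retS S k p hp) ∨ Rf (retS S k p hp)) :
    ∃ K, QC S K := by
  by_cases hE : ∃ (k : ℕ) (p : X) (hp : S.g^[k] p = p), 1 ≤ k ∧ Ell (retS S k p hp)
  · have hall : ∀ (k : ℕ) (p : X) (hp : S.g^[k] p = p), 1 ≤ k → EqMod (retS S k p hp) := by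
      rcases hper with h | h
      · exact h.2
      · intro k p hp hk
        rcases h k p hp hk with h | h | h
        · exact eqMod_of_ell h
        · exact eqMod_of_sc (hrk p) h
        · exact eqMod_of_rf h
    obtain ⟨k, p, hp, hk, hell⟩ := hE
    obtain ⟨ρ, hρ, K, hK, hn⟩ := near_ell S hQ hB hsub hrk hk hp hell hall
    exact qc_of_near S hQ hne htr hB hsub p hρ hK hn
  · have hall : ∀ (k : ℕ) (p : X) (hp : S.g^[k] p = p), 1 ≤ k →
        Sc (retS S k p hp) ∨ Rf (retS S k p hp) := by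
      intro k p hp hk
      rcases hper with h | h
      · exact absurd h.1 hE
      · rcases h k p hp hk with h | h
        · exact absurd ⟨k, p, hp, hk, h⟩ hE
        · exact h
    by_cases hR : ∃ (k : ℕ) (p : X) (hp : S.g^[k] p = p), 1 ≤ k ∧ Rf (retS S k p hp)
    · obtain ⟨k, p, hp, hk, hrf⟩ := hR
      obtain ⟨ρ, hρ, K, hK, hn⟩ := near_rf S hQ hB hsub hrk hk hp hrf hall
      exact qc_of_near S hQ hne htr hB hsub p hρ hK hn
    · refine qc_of_per S hQ hne htr (K₀ := 1) fun n p hn hp => ?_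
      rcases hall n p hp hn with h | h
      · obtain ⟨c, hc⟩ := h
        intro v hv w hw
        have e1 : Dn S n p v = c • v := congrArg Subtype.val (hc ⟨v, hv⟩)
        have e2 : Dn S n p w = c • w := congrArg Subtype.val (hc ⟨w, hw⟩)
        rw [e1, e2, norm_smul, norm_smul]
        apply le_of_eq; ring
      · exact absurd ⟨n, p, hp, hn, h⟩ hR

end Pool.Agent.D0H55.RC
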