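import Pool.Agent.Y321.PD.Clo

set_option autoImplicit false
set_option linter.unusedSectionVars false

/-!
# Comparison of the derivatives along two shadowing orbits

For systems whose distortion on the unstable bundle grows slowly, the derivatives `Dⁿ` along two
orbits which shadow each other are conjugate by linear maps close to the identity at both ends.
-/

namespace Pool.Agent.D0H55.RC

open Pool.Agent.H721R2 Pool.Agent.H779R2.An Pool.Agent.H779R2.An.TauAux Pool.Agent.Y321.PD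
open Filter Topology Finset

variable {X E : Type*} [MetricSpace X] [CompactSpace X] [NormedAddCommGroup E]
  [InnerProductSpace ℝ E] [FiniteDimensional ℝ E] {S : HypSys X E}

/-- The forward transport after `i` steps. -/
noncomputable def FF (S : HypSys X E) (Pu : X → E →ₗ[ℝ] E) (i : ℕ) (x y : X) : E →ₗ[ℝ] E :=
  (Dn S.symm i (S.g^[i] y)).comp ((Pu (S.g^[i] y)).comp (Dn S i x))

theorem FF_apply {Pu : X → E →ₗ[ℝ] E} (i : ℕ) (x y : X) (v : E) : FF S Pu i x y v =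
    Dn S.symm i (S.g^[i] y) (Pu (S.g^[i] y) (Dn S i x v)) := rfl

theorem FF_mem {Pu : X → E →ₗ[ℝ] E} (h : PD S Pu) (i : ℕ) (x y : X) (v : E) :
    FF S Pu i x y v ∈ S.Vu y := by
  rw [FF_apply]
  have := Dn_symm_mem S i (S.g^[i] y) (h.mem (S.g^[i] y) (Dn S i x v))
  rwa [iter_symm_iter] at this

theorem Dn_FF {Pu : X → E →ₗ[ℝ] E} (h : PD S Pu) (i : ℕ) (x y : X) (v : E) :
    Dn S i y (FF S Pu i x y v) = Pu (S.g^[i] y) (Dn S i x v) := by
  rw [FF_apply]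
  have := Dn_Dn_symm S i (S.g^[i] y) (h.mem (S.g^[i] y) (Dn S i x v))
  rwa [iter_symm_iter] at this

theorem le_D1 (S : HypSys X E) (x : X) {v : E} (hv : v ∈ S.Vu x) : 16 * ‖v‖ ≤ ‖S.D x v‖ := by
  have := le_Dn S 1 x hv
  rw [pow_one] at this
  exact this

theorem near_bd {Pu : X → E →ₗ[ℝ] E} {y : X} {v : E} (h : ‖Pu y v - v‖ ≤ 1 / 8 * ‖v‖) :
    ‖Pu y v‖ ≤ 9 / 8 * ‖v‖ ∧ 7 / 8 * ‖v‖ ≤ ‖Pu y v‖ := by
  have h1 := norm_add_le (Pu y v - v) v
  rw [sub_add_cancel] at h1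
  have h2 := norm_sub_le (Pu y v) (Pu y v - v)
  rw [sub_sub_cancel] at h2
  constructor <;> linarith

/-- One step of the forward transport. -/
theorem FF_step {Pu : X → E →ₗ[ℝ] E} (h : PD S Pu) {C₁ ρ : ℝ} (hC₁ : 0 ≤ C₁)
    (hnear : ∀ x y, dist x y < ρ → ∀ v ∈ S.Vu x, ‖Pu y v - v‖ ≤ 1 / 8 * ‖v‖)
    (hstep : ∀ x y, dist x y < ρ → ∀ v ∈ S.Vu x,
      ‖S.D y (Pu y v) - Pu (S.g y) (S.D x v)‖ ≤ C₁ * dist x y * ‖v‖)
    {i : ℕ} {x y : X} (hd : dist (S.g^[i] x) (S.g^[i] y) < ρ) {k : ℝ} (hk : 0 ≤ k)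
    (hQ : QA S (i + 1) y k) {v : E} (hv : v ∈ S.Vu x)
    (hF : ‖FF S Pu i x y v‖ ≤ 2 * ‖v‖) :
    ‖FF S Pu (i + 1) x y v - FF S Pu i x y v‖ ≤
      C₁ * (k * dist (S.g^[i] x) (S.g^[i] y)) * ‖v‖ := by
  by_cases hv0 : v = 0
  · rw [hv0, map_zero, map_zero, sub_zero, norm_zero]; simp
  set xi := S.g^[i] x with hxi
  set yi := S.g^[i] y with hyi
  have eyi : S.g^[i + 1] y = S.g yi := Function.iterate_succ_apply' S.g i y
  set u := Dn S i x v with hu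
  have hum : u ∈ S.Vu xi := Dn_mem S i x hv
  have hu0 : 0 < ‖u‖ := Dn_pos i hv hv0
  set d := dist xi yi with hdd
  set m := FF S Pu i x y v with hm
  have hmm : m ∈ S.Vu y := FF_mem h i x y v
  have hDm : Dn S i y m = Pu yi u := Dn_FF h i x y v
  have hDm1 : Dn S (i + 1) y m = S.D yi (Pu yi u) := by rw [Dn_succ, hDm]
  set z := Pu (S.g yi) (S.D xi u) - S.D yi (Pu yi u) with hz
  have hzm : z ∈ S.Vu (S.g yi) := Submodule.sub_mem _ (h.mem _ _) (S.mapU yi _ (h.mem yi u))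
  have hzn : ‖z‖ ≤ C₁ * d * ‖u‖ := by
    rw [hz, norm_sub_rev]
    exact hstep xi yi hd u hum
  set w := Dn S.symm (i + 1) (S.g yi) z with hw
  have e1 : FF S Pu (i + 1) x y v - m = w := by
    have hm' : m = Dn S.symm (i + 1) (S.g yi) (S.D yi (Pu yi u)) := by
      have := Dn_symm_Dn S (i + 1) y hmm
      rw [eyi, hDm1] at this
      exact this.symm
    rw [hw, hz, map_sub, ← hm', FF_apply, eyi, Dn_succ S i x v]
  have hwm : w ∈ S.Vu y := by
    have := Dn_symm_mem S (i + 1) (S.g yi) hzm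
    rw [← eyi, iter_symm_iter, eyi] at this
    exact this
  have hDw : Dn S (i + 1) y w = z := by
    have hzm' : z ∈ S.Vu (S.g^[i + 1] y) := by rw [eyi]; exact hzm
    have := Dn_Dn_symm S (i + 1) (S.g^[i + 1] y) hzm'
    rw [iter_symm_iter, eyi] at this
    exact this
  rw [e1]
  have h1 := hQ m hmm w hwm
  rw [hDw, hDm1] at h1
  have h2 : 14 * ‖u‖ ≤ ‖S.D yi (Pu yi u)‖ := by
    have a1 := le_D1 S yi (h.mem yi u)
    have a2 := (near_bd (hnear xi yi hd u hum)).2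
    linarith
  have hd0 : 0 ≤ d := dist_nonneg
  have hw0 : 0 ≤ ‖w‖ := norm_nonneg _
  have h3 : 14 * ‖u‖ * ‖w‖ ≤ k * ((C₁ * d * ‖u‖) * (2 * ‖v‖)) := by
    calc 14 * ‖u‖ * ‖w‖ ≤ ‖S.D yi (Pu yi u)‖ * ‖w‖ := mul_le_mul_of_nonneg_right h2 hw0
      _ ≤ k * (‖z‖ * ‖m‖) := h1
      _ ≤ _ := by
          apply mul_le_mul_of_nonneg_left _ hk
          exact mul_le_mul hzn hF (norm_nonneg _) (by positivity)
  have h4 : ‖u‖ * ‖w‖ ≤ ‖u‖ * (C₁ * (k * d) * ‖v‖) := by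
    have : 0 ≤ ‖u‖ * (C₁ * (k * d) * ‖v‖) := by positivity
    nlinarith
  exact le_of_mul_le_mul_left h4 hu0

theorem FF_bound {Pu : X → E →ₗ[ℝ] E} (h : PD S Pu) {C₁ ρ : ℝ} (hC₁ : 0 ≤ C₁)
    (hnear : ∀ x y, dist x y < ρ → ∀ v ∈ S.Vu x, ‖Pu y v - v‖ ≤ 1 / 8 * ‖v‖)
    (hstep : ∀ x y, dist x y < ρ → ∀ v ∈ S.Vu x,
      ‖S.D y (Pu y v) - Pu (S.g y) (S.D x v)‖ ≤ C₁ * dist x y * ‖v‖)
    {m : ℕ} {x y : X} (hd : ∀ i ≤ m, dist (S.g^[i] x) (S.g^[i] y) < ρ) {κ : ℕ → ℝ}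
    (hk : ∀ i, 0 ≤ κ i) (hQ : ∀ i z, QA S i z (κ i)) {s : ℝ} (hs : s ≤ 1 / 4)
    (hsum : C₁ * ∑ i ∈ range m, κ (i + 1) * dist (S.g^[i] x) (S.g^[i] y) ≤ s)
    {v : E} (hv : v ∈ S.Vu x) : ‖FF S Pu m x y v - Pu y v‖ ≤ s * ‖v‖ := by
  have hv0 : 0 ≤ ‖v‖ := norm_nonneg _
  have key : ∀ i ≤ m, ‖FF S Pu i x y v - Pu y v‖ ≤
      C₁ * (∑ j ∈ range i, κ (j + 1) * dist (S.g^[j] x) (S.g^[j] y)) * ‖v‖ := by
    intro i
    induction i with
    | zero =>
      intro _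
      have : FF S Pu 0 x y v = Pu y v := rfl
      rw [this, sub_self, norm_zero]; simp
    | succ i ih =>
      intro hi
      have h1 := ih (by omega)
      have hmono : C₁ * (∑ j ∈ range i, κ (j + 1) * dist (S.g^[j] x) (S.g^[j] y)) ≤ s := by
        refine le_trans (mul_le_mul_of_nonneg_left ?_ hC₁) hsum
        refine Finset.sum_le_sum_of_subset_of_nonneg (range_mono (by omega)) fun j _ _ => ?_
        exact mul_nonneg (hk _) dist_nonneg
      have h2 : ‖FF S Pu i x y v‖ ≤ 2 * ‖v‖ := by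
        have a1 := (near_bd (hnear x y (hd 0 (Nat.zero_le m)) v hv)).1
        have a2 := norm_add_le (FF S Pu i x y v - Pu y v) (Pu y v)
        rw [sub_add_cancel] at a2
        have a3 : C₁ * (∑ j ∈ range i, κ (j + 1) * dist (S.g^[j] x) (S.g^[j] y)) * ‖v‖ ≤
            1 / 4 * ‖v‖ := mul_le_mul_of_nonneg_right (hmono.trans hs) hv0
        linarith
      have h3 := FF_step h hC₁ hnear hstep (hd i (by omega)) (hk (i + 1)) (hQ (i + 1) y) hv h2
      rw [Finset.sum_range_succ]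
      have h4 := norm_add_le (FF S Pu (i + 1) x y v - FF S Pu i x y v)
        (FF S Pu i x y v - Pu y v)
      rw [sub_add_sub_cancel] at h4
      have e : C₁ * (∑ j ∈ range i, κ (j + 1) * dist (S.g^[j] x) (S.g^[j] y) +
          κ (i + 1) * dist (S.g^[i] x) (S.g^[i] y)) * ‖v‖ =
        C₁ * (∑ j ∈ range i, κ (j + 1) * dist (S.g^[j] x) (S.g^[j] y)) * ‖v‖ +
          C₁ * (κ (i + 1) * dist (S.g^[i] x) (S.g^[i] y)) * ‖v‖ := by ring
      rw [e]
      linarith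
  exact (key m le_rfl).trans (mul_le_mul_of_nonneg_right hsum hv0)

/-- The backward transport after `j` steps. -/
noncomputable def GG (S : HypSys X E) (Pu : X → E →ₗ[ℝ] E) (j : ℕ) (a b : X) : E →ₗ[ℝ] E :=
  (Dn S j (S.g.symm^[j] b)).comp ((Pu (S.g.symm^[j] b)).comp (Dn S.symm j a))

theorem GG_apply {Pu : X → E →ₗ[ℝ] E} (j : ℕ) (a b : X) (v : E) : GG S Pu j a b v =
    Dn S j (S.g.symm^[j] b) (Pu (S.g.symm^[j] b) (Dn S.symm j a v)) := rfl

theorem GG_mem {Pu : X → E →ₗ[ℝ] E} (h : PD S Pu) (j : ℕ) (a b : X) (v : E) :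
    GG S Pu j a b v ∈ S.Vu b := by
  rw [GG_apply]
  have := Dn_mem S j (S.g.symm^[j] b) (h.mem (S.g.symm^[j] b) (Dn S.symm j a v))
  rwa [iter_iter_symm] at this

/-- One step of the backward transport. -/
theorem GG_step {Pu : X → E →ₗ[ℝ] E} (h : PD S Pu) {C₁ ρ : ℝ} (hC₁ : 0 ≤ C₁)
    (hnear : ∀ x y, dist x y < ρ → ∀ v ∈ S.Vu x, ‖Pu y v - v‖ ≤ 1 / 8 * ‖v‖)
    (hstep : ∀ x y, dist x y < ρ → ∀ v ∈ S.Vu x,
      ‖S.D y (Pu y v) - Pu (S.g y) (S.D x v)‖ ≤ C₁ * dist x y * ‖v‖)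
    {j : ℕ} {a b : X} (hd : dist (S.g.symm^[j] a) (S.g.symm^[j] b) < ρ)
    (hd' : dist (S.g.symm^[j + 1] a) (S.g.symm^[j + 1] b) < ρ) {k : ℝ} (hk : 0 ≤ k)
    (hQ : QA S j (S.g.symm^[j] b) k) {v : E} (hv : v ∈ S.Vu a)
    (hG : ‖GG S Pu j a b v‖ ≤ 2 * ‖v‖) :
    ‖GG S Pu (j + 1) a b v - GG S Pu j a b v‖ ≤
      C₁ * (k * dist (S.g.symm^[j + 1] a) (S.g.symm^[j + 1] b)) * ‖v‖ := by
  by_cases hv0 : v = 0
  · rw [hv0, map_zero, map_zero, sub_zero, norm_zero]; simp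
  set a' := S.g.symm^[j] a with ha'
  set b' := S.g.symm^[j] b with hb'
  set a'' := S.g.symm^[j + 1] a with ha''
  set b'' := S.g.symm^[j + 1] b with hb''
  have ea : S.g a'' = a' := by
    rw [ha'', Function.iterate_succ_apply', Homeomorph.apply_symm_apply]
  have eb : S.g b'' = b' := by
    rw [hb'', Function.iterate_succ_apply', Homeomorph.apply_symm_apply]
  set u := Dn S.symm (j + 1) a v with hu
  have hum : u ∈ S.Vu a'' := Dn_symm_mem S (j + 1) a hv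
  have hu0 : 0 < ‖u‖ := by
    rw [norm_pos_iff]
    intro h0
    exact hv0 (Dn_symm_eq_zero S (j + 1) a hv h0)
  have hDu : S.D a'' u = Dn S.symm j a v := by
    have h1 : u = S.D' a' (Dn S.symm j a v) := Dn_succ S.symm j a v
    have h2 := S.invU' a' _ (Dn_symm_mem S j a hv)
    have h3 : S.g.symm a' = a'' := by rw [← ea, Homeomorph.symm_apply_apply]
    rw [h3] at h2
    rw [h1]
    exact h2
  set d := dist a'' b'' with hdd
  set m := Pu b' (S.D a'' u) with hm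
  have hmm : m ∈ S.Vu b' := h.mem _ _
  have hDm : Dn S j b' m = GG S Pu j a b v := by
    rw [hm, hDu]; rfl
  set z := S.D b'' (Pu b'' u) - m with hz
  have hzm : z ∈ S.Vu b' := by
    refine Submodule.sub_mem _ ?_ hmm
    have := S.mapU b'' _ (h.mem b'' u)
    rwa [eb] at this
  have hzn : ‖z‖ ≤ C₁ * d * ‖u‖ := by
    have := hstep a'' b'' hd' u hum
    rwa [eb] at this
  have e1 : GG S Pu (j + 1) a b v - GG S Pu j a b v = Dn S j b' z := by
    have h1 : GG S Pu (j + 1) a b v = Dn S j b' (S.D b'' (Pu b'' u)) := by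
      rw [GG_apply, Dn_succ' S j (S.g.symm^[j + 1] b), ← hb'', eb]
    rw [h1, ← hDm, hz, map_sub]
  rw [e1]
  have h1 := hQ z hzm m hmm
  rw [hDm] at h1
  have h2 : 14 * ‖u‖ ≤ ‖m‖ := by
    have a1 := le_D1 S a'' hum
    have hDum : S.D a'' u ∈ S.Vu a' := by
      have := S.mapU a'' _ hum
      rwa [ea] at this
    have a2 := (near_bd (hnear a' b' hd _ hDum)).2
    linarith
  have hd0 : 0 ≤ d := dist_nonneg
  have hw0 : 0 ≤ ‖Dn S j b' z‖ := norm_nonneg _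
  have h3 : ‖Dn S j b' z‖ * (14 * ‖u‖) ≤ k * ((2 * ‖v‖) * (C₁ * d * ‖u‖)) := by
    calc ‖Dn S j b' z‖ * (14 * ‖u‖) ≤ ‖Dn S j b' z‖ * ‖m‖ := mul_le_mul_of_nonneg_left h2 hw0
      _ ≤ k * (‖GG S Pu j a b v‖ * ‖z‖) := h1
      _ ≤ _ := by
          apply mul_le_mul_of_nonneg_left _ hk
          exact mul_le_mul hG hzn (norm_nonneg _) (by positivity)
  have h4 : ‖u‖ * ‖Dn S j b' z‖ ≤ ‖u‖ * (C₁ * (k * d) * ‖v‖) := by
    have : 0 ≤ ‖u‖ * (C₁ * (k * d) * ‖v‖) := by positivity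
    nlinarith
  exact le_of_mul_le_mul_left h4 hu0

theorem GG_bound {Pu : X → E →ₗ[ℝ] E} (h : PD S Pu) {C₁ ρ : ℝ} (hC₁ : 0 ≤ C₁)
    (hnear : ∀ x y, dist x y < ρ → ∀ v ∈ S.Vu x, ‖Pu y v - v‖ ≤ 1 / 8 * ‖v‖)
    (hstep : ∀ x y, dist x y < ρ → ∀ v ∈ S.Vu x,
      ‖S.D y (Pu y v) - Pu (S.g y) (S.D x v)‖ ≤ C₁ * dist x y * ‖v‖)
    {m : ℕ} {a b : X} (hd : ∀ i ≤ m, dist (S.g.symm^[i] a) (S.g.symm^[i] b) < ρ) {κ : ℕ → ℝ}
    (hk : ∀ i, 0 ≤ κ i) (hQ : ∀ i z, QA S i z (κ i)) {s : ℝ} (hs : s ≤ 1 / 4)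
    (hsum : C₁ * ∑ i ∈ range m, κ i * dist (S.g.symm^[i + 1] a) (S.g.symm^[i + 1] b) ≤ s)
    {v : E} (hv : v ∈ S.Vu a) : ‖GG S Pu m a b v - Pu b v‖ ≤ s * ‖v‖ := by
  have hv0 : 0 ≤ ‖v‖ := norm_nonneg _
  have key : ∀ i ≤ m, ‖GG S Pu i a b v - Pu b v‖ ≤
      C₁ * (∑ j ∈ range i, κ j * dist (S.g.symm^[j + 1] a) (S.g.symm^[j + 1] b)) * ‖v‖ := by
    intro i
    induction i with
    | zero =>
      intro _
      have : GG S Pu 0 a b v = Pu b v := rfl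
      rw [this, sub_self, norm_zero]; simp
    | succ i ih =>
      intro hi
      have h1 := ih (by omega)
      have hmono : C₁ * (∑ j ∈ range i, κ j *
          dist (S.g.symm^[j + 1] a) (S.g.symm^[j + 1] b)) ≤ s := by
        refine le_trans (mul_le_mul_of_nonneg_left ?_ hC₁) hsum
        refine Finset.sum_le_sum_of_subset_of_nonneg (range_mono (by omega)) fun j _ _ => ?_
        exact mul_nonneg (hk _) dist_nonneg
      have h2 : ‖GG S Pu i a b v‖ ≤ 2 * ‖v‖ := by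
        have a1 := (near_bd (hnear a b (hd 0 (Nat.zero_le m)) v hv)).1
        have a2 := norm_add_le (GG S Pu i a b v - Pu b v) (Pu b v)
        rw [sub_add_cancel] at a2
        have a3 : C₁ * (∑ j ∈ range i, κ j *
            dist (S.g.symm^[j + 1] a) (S.g.symm^[j + 1] b)) * ‖v‖ ≤
            1 / 4 * ‖v‖ := mul_le_mul_of_nonneg_right (hmono.trans hs) hv0
        linarith
      have h3 := GG_step h hC₁ hnear hstep (hd i (by omega)) (hd (i + 1) hi) (hk i)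
        (hQ i _) hv h2
      rw [Finset.sum_range_succ]
      have h4 := norm_add_le (GG S Pu (i + 1) a b v - GG S Pu i a b v)
        (GG S Pu i a b v - Pu b v)
      rw [sub_add_sub_cancel] at h4
      have e : C₁ * (∑ j ∈ range i, κ j * dist (S.g.symm^[j + 1] a) (S.g.symm^[j + 1] b) +
          κ i * dist (S.g.symm^[i + 1] a) (S.g.symm^[i + 1] b)) * ‖v‖ =
        C₁ * (∑ j ∈ range i, κ j *
            dist (S.g.symm^[j + 1] a) (S.g.symm^[j + 1] b)) * ‖v‖ +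
          C₁ * (κ i * dist (S.g.symm^[i + 1] a) (S.g.symm^[i + 1] b)) * ‖v‖ := by ring
      rw [e]
      linarith
  exact (key m le_rfl).trans (mul_le_mul_of_nonneg_right hsum hv0)

theorem geo_sum (n : ℕ) : ∑ i ∈ range n, (3 / 4 : ℝ) ^ i ≤ 4 := by
  have := Summable.sum_le_tsum (f := fun i : ℕ => (3 / 4 : ℝ) ^ i) (Finset.range n)
    (fun i _ => by positivity) (summable_geometric_of_lt_one (by norm_num) (by norm_num))
  rw [tsum_geometric_of_lt_one (by norm_num) (by norm_num)] at this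
  norm_num at this
  exact this

/-- **Comparison of the derivatives along two shadowing orbits.** -/
theorem compare (S : HypSys X E) {Q r : ℝ} (hQ : Quad S Q r) {B : ℝ} (hB : 0 ≤ B)
    (hsub : ∀ (n : ℕ) (x : X), QA S n x (B * (3 / 2) ^ n)) (η : ℝ) (hη : 0 < η) :
    ∃ c₁ > 0, ∀ c ≤ c₁, ∀ (n : ℕ) (x y : X),
      (∀ i ≤ n, dist (S.g^[i] x) (S.g^[i] y) ≤ c * (1 / 2) ^ i + c * (1 / 2) ^ (n - i)) →
      ∃ A A' : E →ₗ[ℝ] E, (∀ v ∈ S.Vu x, A v ∈ S.Vu y ∧ ‖A v - v‖ ≤ η * ‖v‖) ∧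
        (∀ v ∈ S.Vu (S.g^[n] x), A' v ∈ S.Vu (S.g^[n] y) ∧ ‖A' v - v‖ ≤ η * ‖v‖) ∧
        ∀ v ∈ S.Vu x, Dn S n y (A v) = A' (Dn S n x v) := by
  obtain ⟨Pu, h⟩ := exists_PD S
  have hK1 := S.one_le_K
  have hLu := S.one_le_Lu
  have hQ0 := hQ.Q_pos
  set η' := min (1 / 4) (η / 2) with hη'
  have hη'0 : 0 < η' := lt_min (by norm_num) (by positivity)
  have hη'1 : η' ≤ 1 / 4 := min_le_left _ _
  have hη'2 : η' ≤ η / 2 := min_le_right _ _
  obtain ⟨r₁, hr₁, hn⟩ := h.near (min (1 / 8) (η / 2)) (lt_min (by norm_num) (by positivity))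
  set C₁ := (S.Lu + 1) * S.K * Q with hC₁
  have hC₁0 : 0 < C₁ := by positivity
  set ρ := min r₁ r with hρ
  have hρ0 : 0 < ρ := lt_min hr₁ hQ.r_pos
  have hnear : ∀ x y, dist x y < ρ → ∀ v ∈ S.Vu x, ‖Pu y v - v‖ ≤ 1 / 8 * ‖v‖ :=
    fun x y hxy v hv => (hn x y (hxy.trans_le (min_le_left _ _)) v hv).trans
      (mul_le_mul_of_nonneg_right (min_le_left _ _) (norm_nonneg _))
  have hnear' : ∀ x y, dist x y < ρ → ∀ v ∈ S.Vu x, ‖Pu y v - v‖ ≤ η / 2 * ‖v‖ :=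
    fun x y hxy v hv => (hn x y (hxy.trans_le (min_le_left _ _)) v hv).trans
      (mul_le_mul_of_nonneg_right (min_le_right _ _) (norm_nonneg _))
  have hstep : ∀ x y, dist x y < ρ → ∀ v ∈ S.Vu x,
      ‖S.D y (Pu y v) - Pu (S.g y) (S.D x v)‖ ≤ C₁ * dist x y * ‖v‖ :=
    fun x y hxy => h.step hQ x y (hxy.trans_le (min_le_right _ _))
  have hκ0 : ∀ i : ℕ, 0 ≤ B * (3 / 2 : ℝ) ^ i := fun i => by positivity
  set M := C₁ * (12 * B) + 1 with hM
  have hM0 : 0 < M := by positivity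
  refine ⟨min (ρ / 4) (η' / M), lt_min (by positivity) (by positivity), fun c hc n x y hd => ?_⟩
  have hc1 : c ≤ ρ / 4 := hc.trans (min_le_left _ _)
  have hc2 : c * M ≤ η' := by
    have := hc.trans (min_le_right (ρ / 4) (η' / M))
    rwa [le_div_iff₀ hM0] at this
  have hc0 : 0 ≤ c := by
    have h0 := hd 0 (Nat.zero_le n)
    have h1 : 0 ≤ dist (S.g^[0] x) (S.g^[0] y) := dist_nonneg
    have h2 : (0:ℝ) < (1 / 2) ^ (n - 0) := by positivity
    rw [pow_zero, mul_one] at h0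
    by_contra hneg
    push Not at hneg
    nlinarith
  have hdρ : ∀ i ≤ n, dist (S.g^[i] x) (S.g^[i] y) < ρ := by
    intro i hi
    have u1 : ((1:ℝ) / 2) ^ i ≤ 1 := pow_le_one₀ (by norm_num) (by norm_num)
    have u2 : ((1:ℝ) / 2) ^ (n - i) ≤ 1 := pow_le_one₀ (by norm_num) (by norm_num)
    have := hd i hi
    nlinarith
  set m := n / 2 with hm
  have hmn : m ≤ n := Nat.div_le_self n 2
  set l := n - m with hl
  have hlm : l + m = n := by omega
  have hsF : C₁ * ∑ i ∈ range m, (B * (3 / 2) ^ (i + 1)) * dist (S.g^[i] x) (S.g^[i] y) ≤ η' := by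
    have h1 : ∑ i ∈ range m, (B * (3 / 2) ^ (i + 1)) * dist (S.g^[i] x) (S.g^[i] y) ≤
        ∑ i ∈ range m, (3 * B * c) * (3 / 4 : ℝ) ^ i := by
      refine Finset.sum_le_sum fun i hi => ?_
      rw [Finset.mem_range] at hi
      have h2 := hd i (by omega)
      have h3 : ((1:ℝ) / 2) ^ (n - i) ≤ (1 / 2) ^ i :=
        pow_le_pow_of_le_one (by norm_num) (by norm_num) (by omega)
      have h4 : dist (S.g^[i] x) (S.g^[i] y) ≤ 2 * c * (1 / 2) ^ i := by nlinarith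
      calc (B * (3 / 2) ^ (i + 1)) * dist (S.g^[i] x) (S.g^[i] y)
          ≤ (B * (3 / 2) ^ (i + 1)) * (2 * c * (1 / 2) ^ i) :=
            mul_le_mul_of_nonneg_left h4 (hκ0 _)
        _ = (3 * B * c) * ((3 / 2) ^ i * (1 / 2) ^ i) := by rw [pow_succ]; ring
        _ = _ := by rw [← mul_pow]; norm_num
    rw [← Finset.mul_sum] at h1
    have h2 := geo_sum m
    have h3 : C₁ * ∑ i ∈ range m, (B * (3 / 2) ^ (i + 1)) * dist (S.g^[i] x) (S.g^[i] y) ≤
        C₁ * ((3 * B * c) * 4) := by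
      apply mul_le_mul_of_nonneg_left _ hC₁0.le
      exact h1.trans (mul_le_mul_of_nonneg_left h2 (by positivity))
    have h4 : C₁ * ((3 * B * c) * 4) ≤ c * M := by
      rw [hM]; nlinarith
    linarith
  have esym : ∀ (z : X) (i : ℕ), i ≤ n → S.g.symm^[i] (S.g^[n] z) = S.g^[n - i] z :=
    fun z i hi => symm_iter_iter_le S hi z
  have hsG : C₁ * ∑ i ∈ range l, (B * (3 / 2) ^ i) *
      dist (S.g.symm^[i + 1] (S.g^[n] x)) (S.g.symm^[i + 1] (S.g^[n] y)) ≤ η' := by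
    have h1 : ∑ i ∈ range l, (B * (3 / 2) ^ i) *
        dist (S.g.symm^[i + 1] (S.g^[n] x)) (S.g.symm^[i + 1] (S.g^[n] y)) ≤
        ∑ i ∈ range l, (3 * B * c) * (3 / 4 : ℝ) ^ i := by
      refine Finset.sum_le_sum fun i hi => ?_
      rw [Finset.mem_range] at hi
      rw [esym x (i + 1) (by omega), esym y (i + 1) (by omega)]
      have h2 := hd (n - (i + 1)) (by omega)
      have e : n - (n - (i + 1)) = i + 1 := by omega
      rw [e] at h2
      have h3 : ((1:ℝ) / 2) ^ (n - (i + 1)) ≤ (1 / 2) ^ i :=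
        pow_le_pow_of_le_one (by norm_num) (by norm_num) (by omega)
      have h5 : ((1:ℝ) / 2) ^ (i + 1) ≤ (1 / 2) ^ i :=
        pow_le_pow_of_le_one (by norm_num) (by norm_num) (by omega)
      have h4 : dist (S.g^[n - (i + 1)] x) (S.g^[n - (i + 1)] y) ≤ 3 * c * (1 / 2) ^ i := by
        have : 0 ≤ c * (1 / 2 : ℝ) ^ i := by positivity
        nlinarith
      calc (B * (3 / 2) ^ i) * dist (S.g^[n - (i + 1)] x) (S.g^[n - (i + 1)] y)
          ≤ (B * (3 / 2) ^ i) * (3 * c * (1 / 2) ^ i) :=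
            mul_le_mul_of_nonneg_left h4 (hκ0 _)
        _ = (3 * B * c) * ((3 / 2) ^ i * (1 / 2) ^ i) := by ring
        _ = _ := by rw [← mul_pow]; norm_num
    rw [← Finset.mul_sum] at h1
    have h2 := geo_sum l
    have h3 : C₁ * ∑ i ∈ range l, (B * (3 / 2) ^ i) *
        dist (S.g.symm^[i + 1] (S.g^[n] x)) (S.g.symm^[i + 1] (S.g^[n] y)) ≤
        C₁ * ((3 * B * c) * 4) := by
      apply mul_le_mul_of_nonneg_left _ hC₁0.le
      exact h1.trans (mul_le_mul_of_nonneg_left h2 (by positivity))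
    have h4 : C₁ * ((3 * B * c) * 4) ≤ c * M := by
      rw [hM]; nlinarith
    linarith
  refine ⟨FF S Pu m x y, GG S Pu l (S.g^[n] x) (S.g^[n] y), fun v hv => ⟨FF_mem h m x y v, ?_⟩,
    fun v hv => ⟨GG_mem h l _ _ v, ?_⟩, fun v hv => ?_⟩
  · have h1 := FF_bound h hC₁0.le hnear hstep (m := m) (x := x) (y := y)
      (fun i hi => hdρ i (by omega)) (κ := fun i => B * (3 / 2) ^ i) hκ0 hsub hη'1 hsF hv
    have h2 := hnear' x y (hdρ 0 (Nat.zero_le n)) v hv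
    have h3 := norm_add_le (FF S Pu m x y v - Pu y v) (Pu y v - v)
    rw [sub_add_sub_cancel] at h3
    have h4 : η' * ‖v‖ ≤ η / 2 * ‖v‖ := mul_le_mul_of_nonneg_right hη'2 (norm_nonneg _)
    linarith
  · have h1 := GG_bound h hC₁0.le hnear hstep (m := l) (a := S.g^[n] x) (b := S.g^[n] y)
      (fun i hi => by
        rw [esym x i (by omega), esym y i (by omega)]
        exact hdρ _ (by omega)) (κ := fun i => B * (3 / 2) ^ i) hκ0 hsub hη'1 hsG hv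
    have h2 := hnear' _ _ (hdρ n le_rfl) v hv
    have h3 := norm_add_le (GG S Pu l (S.g^[n] x) (S.g^[n] y) v - Pu (S.g^[n] y) v)
      (Pu (S.g^[n] y) v - v)
    rw [sub_add_sub_cancel] at h3
    have h4 : η' * ‖v‖ ≤ η / 2 * ‖v‖ := mul_le_mul_of_nonneg_right hη'2 (norm_nonneg _)
    linarith
  · have e1 : Dn S n y (FF S Pu m x y v) = Dn S l (S.g^[m] y) (Pu (S.g^[m] y) (Dn S m x v)) := by
      have : Dn S (l + m) y (FF S Pu m x y v) = _ := Dn_add S l m y _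
      rw [hlm, Dn_FF h] at this
      exact this
    have e2 : Dn S n x v = Dn S l (S.g^[m] x) (Dn S m x v) := by
      have : Dn S (l + m) x v = _ := Dn_add S l m x v
      rwa [hlm] at this
    have e3 : S.g^[n] x = S.g^[l] (S.g^[m] x) := by
      rw [← Function.iterate_add_apply, hlm]
    have e4 : Dn S.symm l (S.g^[n] x) (Dn S n x v) = Dn S m x v := by
      rw [e2, e3]
      exact Dn_symm_Dn S l (S.g^[m] x) (Dn_mem S m x hv)
    have e5 : S.g.symm^[l] (S.g^[n] y) = S.g^[m] y := by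
      rw [esym y l (by omega)]; congr 2; omega
    rw [e1, GG_apply, e4, e5]

end Pool.Agent.D0H55.RC
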