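import Pool.Agent.D0H55.RC.Pt
import Pool.Agent.Y321.PD.Main
import Pool.Agent.H147R2.RI.JF

set_option autoImplicit false
set_option linter.unusedSectionVars false

/-!
# From transitive to nonwandering, and the form of the conclusion
-/

open scoped Manifold ContDiff Topology Bundle
open Set Filter Bundle

namespace Pool.Agent.D0H55.RC

open Pool.Agent.H721R2 Pool.Agent.H789R2.AN Pool.Agent.H779R2.An Pool.Agent.H779R2.To
  Pool.Agent.H779R2.Nu Pool.Agent.H147R2.RI Pool.Agent.H576R3.CF Pool.Agent.Q192.PK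
  Pool.Agent.Y321.PD

/-- Transitive homeomorphisms are nonwandering. -/
theorem nw_of_tt {X : Type*} [TopologicalSpace X] (g : X ≃ₜ X) (htr : TopTransitive g) :
    ∀ U : Set X, IsOpen U → U.Nonempty → ∃ m : ℕ, 1 ≤ m ∧ (g^[m] '' U ∩ U).Nonempty := by
  intro U hU hUn
  have hfU : IsOpen (g '' U) := g.isOpenMap U hU
  obtain ⟨n, _, ⟨_, ⟨x, hx, rfl⟩, rfl⟩, hy⟩ := htr (g '' U) U hfU (hUn.image g) hU hUn
  exact ⟨n + 1, by omega, g^[n] (g x), ⟨x, hx, by rw [Function.iterate_succ_apply]⟩, hy⟩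

/-- The explicit form of infra-toral. -/
theorem infra_form {M : Type*} [TopologicalSpace M] [T2Space M] [CompactSpace M] {f : M → M} (h : InfraToral f) :
    ∃ (m : ℕ) (A : Matrix (Fin m) (Fin m) ℤ) (P : (Fin m → ℝ) → M),
      IsUnit A.det ∧ HypMat A ∧ IsCoveringMap P ∧ Function.Surjective P ∧
      (∀ x, f (P x) = P ((A.map (Int.cast : ℤ → ℝ)).mulVec x)) ∧
      (∀ (x : Fin m → ℝ) (z : Fin m → ℤ), P (x + fun i => (z i : ℝ)) = P x) ∧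
      (∀ a, ∃ S : Finset (Fin m → ℝ), ∀ x, P x = a → ∃ s ∈ S, ∃ z : Fin m → ℤ,
        x = s + fun i => (z i : ℝ)) ∧
      ∀ x y, P x = P y → ∃ (B : Matrix (Fin m) (Fin m) ℤ) (c : Fin m → ℝ), IsUnit B.det ∧
        y = (B.map (Int.cast : ℤ → ℝ)).mulVec x + c ∧
        ∀ w, P ((B.map (Int.cast : ℤ → ℝ)).mulVec w + c) = P w := by
  obtain ⟨m, A, P, h1, h2, h3, h4, h5, h6, h7⟩ := h
  exact ⟨m, A, P, h1, h2, h3, h4, h5, h6, fib_fin P h3 h6, h7⟩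

universe u w

variable {E : Type w} [NormedAddCommGroup E] [NormedSpace ℝ E] [FiniteDimensional ℝ E]
  {M : Type u} [TopologicalSpace M] [T2Space M] [CompactSpace M] [ConnectedSpace M]
  [ChartedSpace E M] [IsManifold 𝓘(ℝ, E) ∞ M]

/-- The bundles are invariant under all iterates. -/
theorem inv_bundles (f : Diffeomorph 𝓘(ℝ, E) 𝓘(ℝ, E) M M 1)
    (Es Eu : M → Submodule ℝ E) (hA : IsAnosov (E := E) f Es Eu) :
    (∀ (n : ℕ) (x : M), ∀ v ∈ Eu x, dg E (f^[n]) x v ∈ Eu (f^[n] x)) ∧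
      (∀ (n : ℕ) (x : M), ∀ v ∈ Es x, dg E (f^[n]) x v ∈ Es (f^[n] x)) := by
  obtain ⟨m, ee, hee, hemb, hinje⟩ :=
    exists_embedding_euclidean_of_compact (I := 𝓘(ℝ, E)) (M := M)
  let _ : MetricSpace M := hemb.isEmbedding.comapMetricSpace ee
  have he1 : ContMDiff 𝓘(ℝ, E) (𝓡 m) 1 ee := hee.of_le (by simp)
  obtain ⟨C, a, b, Ls, Lu, hE⟩ := eanosov_of_isAnosov ee he1 hinje f Es Eu hA
  exact ⟨hE.mapU, hE.mapS⟩

/-- One modulus at the periodic points on a bundle of rank at least two gives transitivity. -/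
theorem tt_of_one (f : Diffeomorph 𝓘(ℝ, E) 𝓘(ℝ, E) M M 1)
    (hf2 : ContMDiff 𝓘(ℝ, E) 𝓘(ℝ, E) 2 f) (hf2' : ContMDiff 𝓘(ℝ, E) 𝓘(ℝ, E) 2 f.symm)
    (Es Eu : ∀ x : M, Submodule ℝ (TangentSpace 𝓘(ℝ, E) x)) (hA : IsAnosov f Es Eu)
    (N : TangentBundle 𝓘(ℝ, E) M → ℝ) (hN : IsTangentNorm N)
    (h : ((∀ x, 2 ≤ Module.finrank ℝ (Eu x)) ∧ OneModulus f Eu) ∨
      ((∀ x, 2 ≤ Module.finrank ℝ (Es x)) ∧ OneModulus f Es)) :
    TopTransitive f :=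
  (man_per f hf2 hf2' Es Eu hA N hN (by
    rcases h with h | h
    · exact Or.inl h
    · exact Or.inr (Or.inl h))).1

/-- Bounded distortion at the periodic points on one bundle: transitivity. -/
theorem tt_uni (f : Diffeomorph 𝓘(ℝ, E) 𝓘(ℝ, E) M M 1)
    (hf2 : ContMDiff 𝓘(ℝ, E) 𝓘(ℝ, E) 2 f) (hf2' : ContMDiff 𝓘(ℝ, E) 𝓘(ℝ, E) 2 f.symm)
    (Es Eu : ∀ x : M, Submodule ℝ (TangentSpace 𝓘(ℝ, E) x)) (hA : IsAnosov f Es Eu)
    (N : TangentBundle 𝓘(ℝ, E) M → ℝ) (hN : IsTangentNorm N)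
    (ds du : ℕ) (h2s : 2 ≤ ds) (h2u : 2 ≤ du) (hds : ∀ x, Module.finrank ℝ (Es x) = ds)
    (hdu : ∀ x, Module.finrank ℝ (Eu x) = du)
    (hD : PerDist (E := E) f N Eu ∨ PerDist (E := E) f N Es) : TopTransitive f := by
  have hinv := inv_bundles f Es Eu hA
  refine tt_of_one f hf2 hf2' Es Eu hA N hN ?_
  rcases hD with h | h
  · exact Or.inl ⟨fun x => by rw [hdu x]; exact h2u,
      one_of_pt f N hN Eu hinv.1 (pt_of_per f N hN Eu h)⟩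
  · exact Or.inr ⟨fun x => by rw [hds x]; exact h2s,
      one_of_pt f N hN Es hinv.2 (pt_of_per f N hN Es h)⟩

/-- Bounded distortion at the periodic points on one bundle: no transitivity is needed. -/
theorem main_uni (f : Diffeomorph 𝓘(ℝ, E) 𝓘(ℝ, E) M M 1)
    (hf2 : ContMDiff 𝓘(ℝ, E) 𝓘(ℝ, E) 2 f) (hf2' : ContMDiff 𝓘(ℝ, E) 𝓘(ℝ, E) 2 f.symm)
    (Es Eu : ∀ x : M, Submodule ℝ (TangentSpace 𝓘(ℝ, E) x)) (hA : IsAnosov f Es Eu)
    (N : TangentBundle 𝓘(ℝ, E) M → ℝ) (hN : IsTangentNorm N)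
    (ds du : ℕ) (h2s : 2 ≤ ds) (h2u : 2 ≤ du) (hds : ∀ x, Module.finrank ℝ (Es x) = ds)
    (hdu : ∀ x, Module.finrank ℝ (Eu x) = du)
    (hD : PerDist (E := E) f N Eu ∨ PerDist (E := E) f N Es) : InfraToral f :=
  (main_per E M f hf2 hf2' Es Eu hA N hN ds du h2s h2u hds hdu
    (nw_of_tt f.toHomeomorph (tt_uni f hf2 hf2' Es Eu hA N hN ds du h2s h2u hds hdu hD)) hD).1

end Pool.Agent.D0H55.RC
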