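import Mathlib

set_option autoImplicit false
set_option linter.unusedSectionVars false

/-!
# Linear maps of a plane whose eigenvalues have the same modulus
-/

namespace Pool.Agent.D0H55.RC

open Filter Topology

variable {W : Type*} [NormedAddCommGroup W] [NormedSpace ℝ W] [FiniteDimensional ℝ W]

/-- Distortion at most `K`. -/
def BD (K : ℝ) (T : W →ₗ[ℝ] W) : Prop := ∀ v w : W, ‖T v‖ * ‖w‖ ≤ K * (‖T w‖ * ‖v‖)

/-- For maps of a plane: the two eigenvalues have the same modulus. -/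
def EqMod (T : W →ₗ[ℝ] W) : Prop := (LinearMap.trace ℝ W T) ^ 2 ≤ 4 * |LinearMap.det T|

/-- For maps of a plane: the eigenvalues are not real. -/
def Ell (T : W →ₗ[ℝ] W) : Prop := (LinearMap.trace ℝ W T) ^ 2 < 4 * LinearMap.det T

/-- Multiples of the identity. -/
def Sc (T : W →ₗ[ℝ] W) : Prop := ∃ c : ℝ, ∀ v, T v = c • v

/-- For maps of a plane: the eigenvalues are `a` and `-a`, `a > 0` real. -/
def Rf (T : W →ₗ[ℝ] W) : Prop := LinearMap.trace ℝ W T = 0 ∧ LinearMap.det T < 0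

theorem mat_core (a b c d p q r s : ℝ) (h1 : a + d = 0) (h2 : a * d - b * c = 0)
    (h3 : (p * a + q * c) + (r * b + s * d) = 0) (h4 : (p + s) ^ 2 < 4 * (p * s - q * r)) :
    a = 0 ∧ b = 0 ∧ c = 0 ∧ d = 0 := by
  have hd : d = -a := by linarith
  subst hd
  have h5 : a ^ 2 + b * c = 0 := by linarith
  have h6 : (p - s) * a = -(q * c + r * b) := by linarith
  have h7 : a = 0 := by
    by_contra ha
    have ha2 : 0 < a ^ 2 := by positivity
    have h8 : ((p - s) ^ 2 + 4 * (q * r)) * a ^ 2 = (q * c - r * b) ^ 2 := by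
      have e1 : ((p - s) ^ 2 + 4 * (q * r)) * a ^ 2 =
          ((p - s) * a) ^ 2 + 4 * (q * r) * a ^ 2 := by ring
      have e2 : a ^ 2 = -(b * c) := by linarith
      rw [e1, h6, e2]; ring
    have h9 : (p - s) ^ 2 + 4 * (q * r) < 0 := by nlinarith
    nlinarith [sq_nonneg (q * c - r * b)]
  subst h7
  have h8 : b * c = 0 := by linarith
  have hneg : (p - s) ^ 2 + 4 * (q * r) < 0 := by nlinarith
  have hqr : q * r ≠ 0 := by
    intro h
    rw [h] at hneg
    nlinarith [sq_nonneg (p - s)]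
  have hq : q ≠ 0 := fun h => hqr (by rw [h, zero_mul])
  have hr : r ≠ 0 := fun h => hqr (by rw [h, mul_zero])
  have h9 : q * c + r * b = 0 := by linarith
  rcases mul_eq_zero.mp h8 with h | h
  · subst h
    have : q * c = 0 := by linarith
    rcases mul_eq_zero.mp this with h' | h'
    · exact absurd h' hq
    · exact ⟨rfl, rfl, h', by simp⟩
  · subst h
    have : r * b = 0 := by linarith
    rcases mul_eq_zero.mp this with h' | h'
    · exact absurd h' hr
    · exact ⟨rfl, h', rfl, by simp⟩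

theorem inj_of_det {T : W →ₗ[ℝ] W} (h : LinearMap.det T ≠ 0) : Function.Injective T := by
  have hu : IsUnit (LinearMap.det T) := isUnit_iff_ne_zero.mpr h
  have := (LinearMap.isUnit_iff_isUnit_det T).mpr hu
  rw [Module.End.isUnit_iff] at this
  exact this.1

/-- A nonzero singular map `T` of a plane with `T` and `G T` nilpotent forces real eigenvalues
of `G`. -/
theorem core (h2 : Module.finrank ℝ W = 2) {G T : W →ₗ[ℝ] W} (hG : Ell G) (hT : EqMod T)
    (hGT : EqMod (G ∘ₗ T)) {w : W} (hw : w ≠ 0) (hTw : T w = 0) : T = 0 := by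
  have hdet : LinearMap.det T = 0 := by
    by_contra hne
    have hu : IsUnit (LinearMap.det T) := isUnit_iff_ne_zero.mpr hne
    have := (LinearMap.isUnit_iff_isUnit_det T).mpr hu
    have hinj : Function.Injective T := by
      rw [Module.End.isUnit_iff] at this
      exact this.1
    exact hw (hinj (by rw [hTw, map_zero]))
  have htr : LinearMap.trace ℝ W T = 0 := by
    have h := hT
    unfold EqMod at h
    rw [hdet, abs_zero, mul_zero] at h
    exact pow_eq_zero_iff (two_ne_zero) |>.mp (le_antisymm h (sq_nonneg _))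
  have htr' : LinearMap.trace ℝ W (G ∘ₗ T) = 0 := by
    have h := hGT
    unfold EqMod at h
    have hd : LinearMap.det (G ∘ₗ T) = 0 := by
      rw [LinearMap.det_comp, hdet, mul_zero]
    rw [hd, abs_zero, mul_zero] at h
    exact pow_eq_zero_iff (two_ne_zero) |>.mp (le_antisymm h (sq_nonneg _))
  let B : Module.Basis (Fin 2) ℝ W := Module.finBasisOfFinrankEq ℝ W h2
  set MT := LinearMap.toMatrix B B T with hMT
  set MG := LinearMap.toMatrix B B G with hMG
  have e1 : MT 0 0 + MT 1 1 = 0 := by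
    rw [← htr, LinearMap.trace_eq_matrix_trace ℝ B T, Matrix.trace_fin_two]
  have e2 : MT 0 0 * MT 1 1 - MT 0 1 * MT 1 0 = 0 := by
    rw [← hdet, ← LinearMap.det_toMatrix B T, Matrix.det_fin_two]
  have e3 : (MG 0 0 * MT 0 0 + MG 0 1 * MT 1 0) + (MG 1 0 * MT 0 1 + MG 1 1 * MT 1 1) = 0 := by
    rw [← htr', LinearMap.trace_eq_matrix_trace ℝ B (G ∘ₗ T), LinearMap.toMatrix_comp B B B,
      Matrix.trace_fin_two, Matrix.mul_apply, Matrix.mul_apply]
    simp [Fin.sum_univ_two, hMT, hMG]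
  have e4 : (MG 0 0 + MG 1 1) ^ 2 < 4 * (MG 0 0 * MG 1 1 - MG 0 1 * MG 1 0) := by
    have h := hG
    unfold Ell at h
    rwa [LinearMap.trace_eq_matrix_trace ℝ B G, Matrix.trace_fin_two,
      ← LinearMap.det_toMatrix B G, Matrix.det_fin_two] at h
  obtain ⟨a1, a2, a3, a4⟩ := mat_core _ _ _ _ _ _ _ _ e1 e2 e3 e4
  have hz : MT = 0 := by
    ext i j
    fin_cases i <;> fin_cases j
    · exact a1
    · exact a2
    · exact a3
    · exact a4
  rw [hMT] at hz
  exact (LinearMap.toMatrix B B).map_eq_zero_iff.mp hz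

theorem continuous_trace : Continuous fun f : W →L[ℝ] W => LinearMap.trace ℝ W (f : W →ₗ[ℝ] W) := by
  have : Continuous ((LinearMap.trace ℝ W).comp
      (ContinuousLinearMap.coeLM ℝ : (W →L[ℝ] W) →ₗ[ℝ] (W →ₗ[ℝ] W))) :=
    LinearMap.continuous_of_finiteDimensional _
  exact this

omit [FiniteDimensional ℝ W] in
theorem continuous_det' : Continuous fun f : W →L[ℝ] W => LinearMap.det (f : W →ₗ[ℝ] W) :=
  ContinuousLinearMap.continuous_det

theorem lin_smul_eqmod (h2 : Module.finrank ℝ W = 2) {T : W →ₗ[ℝ] W} (hT : EqMod T) (c : ℝ) :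
    EqMod (c • T) := by
  unfold EqMod at *
  rw [map_smul, LinearMap.det_smul, h2, smul_eq_mul, mul_pow, abs_mul, abs_of_nonneg (sq_nonneg c)]
  nlinarith [sq_nonneg c]

/-- **Linear algebra, elliptic case.** -/
theorem lin_ell (h2 : Module.finrank ℝ W = 2) {R₀ : W →ₗ[ℝ] W} (hR : Ell R₀) :
    ∃ η > 0, ∃ K : ℝ, 0 ≤ K ∧ ∀ G T : W →ₗ[ℝ] W, (∀ v, ‖G v - R₀ v‖ ≤ η * ‖v‖) →
      EqMod T → EqMod (G ∘ₗ T) → BD K T := by
  set R : W →L[ℝ] W := LinearMap.toContinuousLinearMap R₀ with hRdef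
  -- a neighbourhood of `R` of elliptic maps
  have hcont : Continuous fun f : W →L[ℝ] W =>
      4 * LinearMap.det (f : W →ₗ[ℝ] W) - (LinearMap.trace ℝ W (f : W →ₗ[ℝ] W)) ^ 2 :=
    (continuous_const.mul continuous_det').sub (continuous_trace.pow 2)
  have hpos : 0 < 4 * LinearMap.det (R : W →ₗ[ℝ] W) - (LinearMap.trace ℝ W (R : W →ₗ[ℝ] W)) ^ 2 := by
    have e : (R : W →ₗ[ℝ] W) = R₀ := rfl
    rw [e]
    unfold Ell at hR
    linarith
  obtain ⟨η, hη, hball⟩ := Metric.eventually_nhds_iff_ball.mp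
    (hcont.continuousAt.eventually (lt_mem_nhds hpos))
  have hpr : ProperSpace (W →L[ℝ] W) := FiniteDimensional.proper_real _
  have hprW : ProperSpace W := FiniteDimensional.proper_real _
  set Z : Set ((W →L[ℝ] W) × (W →L[ℝ] W) × W) :=
    {z | z.1 ∈ Metric.closedBall R (η / 2) ∧ z.2.1 ∈ Metric.sphere (0 : W →L[ℝ] W) 1 ∧
      z.2.2 ∈ Metric.sphere (0 : W) 1 ∧ EqMod (z.2.1 : W →ₗ[ℝ] W) ∧
      EqMod ((z.1 : W →ₗ[ℝ] W) ∘ₗ (z.2.1 : W →ₗ[ℝ] W))} with hZ
  have hZc : IsCompact Z := by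
    have hsub : Z ⊆ (Metric.closedBall R (η / 2)) ×ˢ ((Metric.sphere (0 : W →L[ℝ] W) 1) ×ˢ
        (Metric.sphere (0 : W) 1)) := fun z hz => ⟨hz.1, hz.2.1, hz.2.2.1⟩
    refine IsCompact.of_isClosed_subset ((isCompact_closedBall R (η / 2)).prod
      ((isCompact_sphere _ _).prod (isCompact_sphere _ _))) ?_ hsub
    have c1 : Continuous fun z : (W →L[ℝ] W) × (W →L[ℝ] W) × W => z.2.1 :=
      continuous_fst.comp continuous_snd
    have c2 : Continuous fun z : (W →L[ℝ] W) × (W →L[ℝ] W) × W => z.1.comp z.2.1 :=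
      (continuous_fst).clm_comp c1
    refine IsClosed.inter (Metric.isClosed_closedBall.preimage continuous_fst)
      (IsClosed.inter (Metric.isClosed_sphere.preimage c1)
      (IsClosed.inter (Metric.isClosed_sphere.preimage (continuous_snd.comp continuous_snd))
      (IsClosed.inter ?_ ?_)))
    · exact isClosed_le ((continuous_trace.comp c1).pow 2)
        (continuous_const.mul (continuous_det'.comp c1).abs)
    · exact isClosed_le (g := fun z : (W →L[ℝ] W) × (W →L[ℝ] W) × W =>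
          4 * |LinearMap.det ((z.1.comp z.2.1 : W →L[ℝ] W) : W →ₗ[ℝ] W)|)
        ((continuous_trace.comp c2).pow 2)
        (continuous_const.mul (continuous_det'.comp c2).abs)
  have hmin : ∃ m > 0, ∀ z ∈ Z, m ≤ ‖z.2.1 z.2.2‖ := by
    rcases Z.eq_empty_or_nonempty with h | h
    · exact ⟨1, one_pos, fun z hz => by rw [h] at hz; exact absurd hz (Set.notMem_empty z)⟩
    · have cc : Continuous fun z : (W →L[ℝ] W) × (W →L[ℝ] W) × W => ‖z.2.1 z.2.2‖ := by
        have c1 : Continuous fun z : (W →L[ℝ] W) × (W →L[ℝ] W) × W => z.2.1 :=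
          continuous_fst.comp continuous_snd
        exact (c1.clm_apply (continuous_snd.comp continuous_snd)).norm
      obtain ⟨z₀, hz₀, hmin⟩ := hZc.exists_isMinOn h cc.continuousOn
      refine ⟨‖z₀.2.1 z₀.2.2‖, ?_, fun z hz => hmin hz⟩
      rw [gt_iff_lt, norm_pos_iff]
      intro h0
      obtain ⟨a1, a2, a3, a4, a5⟩ := hz₀
      have hell : Ell (z₀.1 : W →ₗ[ℝ] W) := by
        have := hball z₀.1 (lt_of_le_of_lt (Metric.mem_closedBall.mp a1) (by linarith))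
        unfold Ell
        linarith
      have hw : z₀.2.2 ≠ 0 := by
        intro h'
        rw [h', mem_sphere_zero_iff_norm, norm_zero] at a3
        exact zero_ne_one a3
      have := core h2 hell a4 a5 hw h0
      have h3 : z₀.2.1 = 0 := by
        ext v
        exact congrArg (fun f : W →ₗ[ℝ] W => f v) this
      rw [h3, mem_sphere_zero_iff_norm, norm_zero] at a2
      exact zero_ne_one a2
  obtain ⟨m, hm, hmin⟩ := hmin
  refine ⟨η / 2, by positivity, 1 / m, by positivity, fun G T hG hT hGT v w => ?_⟩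
  by_cases hT0 : T = 0
  · rw [hT0]; simp
  by_cases hw0 : w = 0
  · rw [hw0]; simp
  set T' : W →L[ℝ] W := LinearMap.toContinuousLinearMap T with hT'
  set G' : W →L[ℝ] W := LinearMap.toContinuousLinearMap G with hG'
  have hTn : 0 < ‖T'‖ := by
    rw [norm_pos_iff]
    intro h
    apply hT0
    ext v
    exact congrArg (fun f : W →L[ℝ] W => f v) h
  have hwn : 0 < ‖w‖ := norm_pos_iff.mpr hw0
  set T₁ : W →L[ℝ] W := ‖T'‖⁻¹ • T' with hT₁
  have e1 : (T₁ : W →ₗ[ℝ] W) = ‖T'‖⁻¹ • T := rfl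
  have hz : ((G', T₁, ‖w‖⁻¹ • w) : (W →L[ℝ] W) × (W →L[ℝ] W) × W) ∈ Z := by
    refine ⟨?_, ?_, ?_, ?_, ?_⟩
    · rw [Metric.mem_closedBall, dist_eq_norm]
      refine ContinuousLinearMap.opNorm_le_bound _ (by positivity) fun v => ?_
      exact hG v
    · rw [mem_sphere_zero_iff_norm, hT₁, norm_smul, norm_inv, norm_norm, inv_mul_cancel₀ hTn.ne']
    · rw [mem_sphere_zero_iff_norm, norm_smul, norm_inv, norm_norm, inv_mul_cancel₀ hwn.ne']
    · show EqMod (T₁ : W →ₗ[ℝ] W)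
      rw [e1]
      exact lin_smul_eqmod h2 hT _
    · show EqMod ((G' : W →ₗ[ℝ] W) ∘ₗ (T₁ : W →ₗ[ℝ] W))
      rw [e1, LinearMap.comp_smul]
      exact lin_smul_eqmod h2 hGT _
  have h3 := hmin _ hz
  have h4 : ‖T₁ (‖w‖⁻¹ • w)‖ = ‖T'‖⁻¹ * (‖w‖⁻¹ * ‖T w‖) := by
    rw [map_smul, norm_smul, norm_inv, norm_norm]
    have : T₁ w = ‖T'‖⁻¹ • T w := rfl
    rw [this, norm_smul, norm_inv, norm_norm]
    ring
  have h5 : m ≤ ‖T'‖⁻¹ * (‖w‖⁻¹ * ‖T w‖) := by
    rw [← h4]; exact h3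
  have h6 : m * (‖T'‖ * ‖w‖) ≤ ‖T w‖ := by
    have := mul_le_mul_of_nonneg_right h5 (show 0 ≤ ‖T'‖ * ‖w‖ by positivity)
    have e : ‖T'‖⁻¹ * (‖w‖⁻¹ * ‖T w‖) * (‖T'‖ * ‖w‖) = ‖T w‖ := by field_simp
    rwa [e] at this
  have h7 : ‖T v‖ ≤ ‖T'‖ * ‖v‖ := T'.le_opNorm v
  calc ‖T v‖ * ‖w‖ ≤ (‖T'‖ * ‖v‖) * ‖w‖ := mul_le_mul_of_nonneg_right h7 hwn.le
    _ = 1 / m * ((m * (‖T'‖ * ‖w‖)) * ‖v‖) := by field_simp
    _ ≤ 1 / m * (‖T w‖ * ‖v‖) := by
        apply mul_le_mul_of_nonneg_left _ (by positivity)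
        exact mul_le_mul_of_nonneg_right h6 (norm_nonneg _)

/-- **Linear algebra, reflection case.** -/
theorem lin_rf {R₀ : W →ₗ[ℝ] W} (hR : LinearMap.det R₀ < 0) :
    ∃ η > 0, ∃ K : ℝ, 0 ≤ K ∧ ∀ G T : W →ₗ[ℝ] W, (∀ v, ‖G v - R₀ v‖ ≤ η * ‖v‖) →
      (Sc T ∨ Rf T) → (Sc (G ∘ₗ T) ∨ Rf (G ∘ₗ T)) → BD K T := by
  set R : W →L[ℝ] W := LinearMap.toContinuousLinearMap R₀ with hRdef
  have hneg : LinearMap.det (R : W →ₗ[ℝ] W) < 0 := hR
  obtain ⟨η₁, hη₁, hball⟩ := Metric.eventually_nhds_iff_ball.mp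
    (continuous_det'.continuousAt.eventually (gt_mem_nhds hneg))
  -- a lower bound for `R₀`
  have hu : IsUnit (LinearMap.det R₀) := isUnit_iff_ne_zero.mpr hR.ne
  have hu' := (LinearMap.isUnit_iff_isUnit_det R₀).mpr hu
  have hinj : Function.Injective R₀ := by
    rw [Module.End.isUnit_iff] at hu'
    exact hu'.1
  obtain ⟨m, hm, hlow⟩ : ∃ m > 0, ∀ v, m * ‖v‖ ≤ ‖R₀ v‖ := by
    obtain ⟨K, hK, hA⟩ := R₀.exists_antilipschitzWith (LinearMap.ker_eq_bot.mpr hinj)
    have hK' : (0 : ℝ) < K := by exact_mod_cast hK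
    refine ⟨(K : ℝ)⁻¹, by positivity, fun v => ?_⟩
    have := hA.le_mul_dist v 0
    rw [dist_zero_right, map_zero, dist_zero_right] at this
    rw [inv_mul_le_iff₀ hK']
    exact this
  set η := min (η₁ / 2) (m / 2) with hη
  have hη0 : 0 < η := lt_min (by positivity) (by positivity)
  have hη1 : η ≤ η₁ / 2 := min_le_left _ _
  have hη2 : η ≤ m / 2 := min_le_right _ _
  set L := ‖R‖ + η with hL
  have hL0 : 0 < L := by positivity
  set K := max 1 (L / (m / 2)) with hK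
  have hK0 : 0 ≤ K := le_trans zero_le_one (le_max_left _ _)
  refine ⟨η, hη0, K, hK0, fun G T hG hT hGT v w => ?_⟩
  have hsc : Sc T → ‖T v‖ * ‖w‖ ≤ K * (‖T w‖ * ‖v‖) := by
    rintro ⟨c, hc⟩
    rw [hc, hc, norm_smul, norm_smul]
    have h1 : ‖c‖ * ‖v‖ * ‖w‖ = 1 * (‖c‖ * ‖w‖ * ‖v‖) := by ring
    rw [h1]
    exact mul_le_mul_of_nonneg_right (le_max_left _ _) (by positivity)
  rcases hT with hT | hT
  · exact hsc hT
  -- the determinant of `G T` is positive
  have hGneg : LinearMap.det G < 0 := by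
    set G' : W →L[ℝ] W := LinearMap.toContinuousLinearMap G with hG'
    have h1 : dist G' R < η₁ := by
      rw [dist_eq_norm]
      refine lt_of_le_of_lt (ContinuousLinearMap.opNorm_le_bound _ hη0.le fun v => hG v) ?_
      linarith
    exact hball G' h1
  have hpos : 0 < LinearMap.det (G ∘ₗ T) := by
    rw [LinearMap.det_comp]
    exact mul_pos_of_neg_of_neg hGneg hT.2
  obtain ⟨c, hc⟩ : Sc (G ∘ₗ T) := by
    rcases hGT with h | h
    · exact h
    · exact absurd h.2 (not_lt.mpr hpos.le)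
  by_cases hw0 : w = 0
  · rw [hw0]; simp
  have hw : 0 < ‖w‖ := norm_pos_iff.mpr hw0
  -- `c ≠ 0`
  have hc0 : c ≠ 0 := by
    intro h0
    have h1 : (G ∘ₗ T) w = 0 := by rw [hc, h0, zero_smul]
    exact hw0 (inj_of_det hpos.ne' (by rw [h1, map_zero]))
  have hcn : 0 < ‖c‖ := norm_pos_iff.mpr hc0
  have hGlow : ∀ v, m / 2 * ‖v‖ ≤ ‖G v‖ := by
    intro v
    have h1 := hG v
    have h2 := hlow v
    have h3 := norm_sub_norm_le (R₀ v) (R₀ v - G v)
    rw [sub_sub_cancel, norm_sub_rev (R₀ v)] at h3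
    have h4 : η * ‖v‖ ≤ m / 2 * ‖v‖ := mul_le_mul_of_nonneg_right hη2 (norm_nonneg _)
    linarith
  have hGup : ∀ v, ‖G v‖ ≤ L * ‖v‖ := by
    intro v
    have h1 := hG v
    have h2 : ‖R₀ v‖ ≤ ‖R‖ * ‖v‖ := R.le_opNorm v
    have h3 := norm_add_le (G v - R₀ v) (R₀ v)
    rw [sub_add_cancel] at h3
    rw [hL, add_mul]
    linarith
  have h1 : m / 2 * ‖T v‖ ≤ ‖c‖ * ‖v‖ := by
    have := hGlow (T v)
    rw [show G (T v) = (G ∘ₗ T) v from rfl, hc, norm_smul] at this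
    exact this
  have h2 : ‖c‖ * ‖w‖ ≤ L * ‖T w‖ := by
    have := hGup (T w)
    rw [show G (T w) = (G ∘ₗ T) w from rfl, hc, norm_smul] at this
    exact this
  have h3 : (m / 2 * ‖T v‖) * (‖c‖ * ‖w‖) ≤ (‖c‖ * ‖v‖) * (L * ‖T w‖) :=
    mul_le_mul h1 h2 (by positivity) (by positivity)
  have h4 : ‖T v‖ * ‖w‖ ≤ L / (m / 2) * (‖T w‖ * ‖v‖) := by
    have h5 : (‖c‖ * (m / 2)) * (‖T v‖ * ‖w‖) ≤ (‖c‖ * (m / 2)) * (L / (m / 2) * (‖T w‖ * ‖v‖)) := by
      calc _ = (m / 2 * ‖T v‖) * (‖c‖ * ‖w‖) := by ring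
        _ ≤ _ := h3
        _ = _ := by field_simp
    exact le_of_mul_le_mul_left h5 (by positivity)
  exact h4.trans (mul_le_mul_of_nonneg_right (le_max_right _ _) (by positivity))

end Pool.Agent.D0H55.RC
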