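import Pool.Agent.D0H55.RC.Pow
import Pool.Agent.D0H55.RC.Fin

set_option autoImplicit false
set_option linter.unusedSectionVars false

/-!
# Rank two: Anosov diffeomorphisms
-/

open scoped Manifold ContDiff Topology Bundle
open Set Filter Bundle

namespace Pool.Agent.D0H55.RC

open Pool.Agent.H721R2 Pool.Agent.H789R2.AN Pool.Agent.H779R2.An Pool.Agent.H779R2.To
  Pool.Agent.H779R2.Nu Pool.Agent.H147R2.RI Pool.Agent.H576R3.CF Pool.Agent.Q192.PK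
  Pool.Agent.Y321.PD Pool.Agent.Q192.PI.B Pool.Agent.Q192.PI Pool.Agent.Q192.PG
  Pool.Agent.TH289.K Pool.Agent.Y330.J
open Pool.Agent.W740.TU (anosov_symm)

universe u v w

section defs

variable {E : Type w} [NormedAddCommGroup E] [NormedSpace ℝ E]
  {M : Type u} [TopologicalSpace M] [ChartedSpace E M]

/-- Bounded distortion of the iterates of the return map at each periodic point. -/
def PtN (f : M → M) (V : M → Submodule ℝ E) : Prop :=
  ∀ (k : ℕ) (p : M), 1 ≤ k → f^[k] p = p → ∃ A : ℝ, 0 ≤ A ∧ ∀ q : ℕ, ∀ v ∈ V p, ∀ w ∈ V p,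
    ‖dg E (f^[k * q]) p v‖ * ‖w‖ ≤ A * (‖dg E (f^[k * q]) p w‖ * ‖v‖)

/-- One periodic point with a non-real eigenvalue of the return map. -/
def NonR (f : M → M) (V : M → Submodule ℝ E) : Prop :=
  ∃ (k : ℕ) (p : M) (z : ℂ), 1 ≤ k ∧ f^[k] p = p ∧ z.im ≠ 0 ∧ ∃ a ∈ V p, ∃ b ∈ V p,
    (a ≠ 0 ∨ b ≠ 0) ∧ dg E (f^[k]) p a = z.re • a - z.im • b ∧
      dg E (f^[k]) p b = z.im • a + z.re • b

theorem PtN.perDis {f : M → M} {V : M → Submodule ℝ E} (h : PtN f V) : PerDis f V := by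
  intro k p hk hp κ hκ
  obtain ⟨A, hA, h1⟩ := h k p hk hp
  refine ⟨A, fun q v hv w hw => (h1 q v hv w hw).trans ?_⟩
  have : 1 ≤ κ ^ (k * q) := one_le_pow₀ hκ.le
  apply mul_le_mul_of_nonneg_right _ (by positivity)
  nlinarith

end defs

section inverse

variable {E : Type w} [NormedAddCommGroup E] [NormedSpace ℝ E] [FiniteDimensional ℝ E]
  {M : Type u} [MetricSpace M] [CompactSpace M] [ChartedSpace E M] [IsManifold 𝓘(ℝ, E) ∞ M]
  {f : M ≃ₜ M} (hf : ContMDiff 𝓘(ℝ, E) 𝓘(ℝ, E) 1 f)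
  (hf' : ContMDiff 𝓘(ℝ, E) 𝓘(ℝ, E) 1 f.symm) {V : M → Submodule ℝ E}
  (hV : ∀ (n : ℕ) (x : M), ∀ v ∈ V x, dg E (f.symm^[n]) x v ∈ V (f.symm^[n] x))

include hf hf' hV

theorem ptN_symm (h : PtN f V) : PtN f.symm V := by
  intro k p hk hp
  obtain ⟨A, hA0, hA⟩ := h k p hk (per_symm hp)
  refine ⟨A, hA0, fun q v hv w hw => ?_⟩
  obtain ⟨m1, m2⟩ := symm_vec hf hf' hV hp q hv
  obtain ⟨m3, m4⟩ := symm_vec hf hf' hV hp q hw
  have h1 := hA q _ m3 _ m1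
  rw [m2, m4] at h1
  linarith

theorem nonR_symm (h : NonR f V) : NonR f.symm V := by
  obtain ⟨k, p, z, hk, hp, hz, a, ha, b, hb, hab, h1, h2⟩ := h
  have hp' : f.symm^[k] p = p := by
    have h3 : f.symm^[k] (f^[k] p) = p := (Function.LeftInverse.iterate f.symm_apply_apply k) p
    rwa [hp] at h3
  have hz0 : z ≠ 0 := fun h => hz (by rw [h]; rfl)
  have hinv : ∀ v : E, dg E (f.symm^[k]) p (dg E (f^[k]) p v) = v := by
    intro v
    have h3 := dg_inv (f^[k]) (f.symm^[k]) (iter_smooth f hf k) (iter_smooth f.symm hf' k)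
      (fun z => (Function.LeftInverse.iterate f.symm_apply_apply k) z) p v
    rwa [hp] at h3
  have e1 := hinv a
  have e2 := hinv b
  rw [h1, map_sub, map_smul, map_smul] at e1
  rw [h2, _root_.map_add, map_smul, map_smul] at e2
  set x := dg E (f.symm^[k]) p a with hx
  set y := dg E (f.symm^[k]) p b with hy
  have hn : z.re ^ 2 + z.im ^ 2 ≠ 0 := by
    have : 0 < z.im ^ 2 := by positivity
    nlinarith [sq_nonneg z.re]
  have n1 : Complex.normSq z = z.re ^ 2 + z.im ^ 2 := by rw [Complex.normSq_apply]; ring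
  have r1 : (z⁻¹).re = z.re / (z.re ^ 2 + z.im ^ 2) := by rw [Complex.inv_re, n1]
  have r2 : (z⁻¹).im = -z.im / (z.re ^ 2 + z.im ^ 2) := by rw [Complex.inv_im, n1]
  refine ⟨k, p, z⁻¹, hk, hp', ?_, a, ha, b, hb, hab, ?_, ?_⟩
  · rw [r2]
    exact div_ne_zero (neg_ne_zero.mpr hz) hn
  · rw [r1, r2, ← hx]
    have h3 : (z.re ^ 2 + z.im ^ 2) • x = z.re • a + z.im • b := by
      rw [← e1, ← e2]; module
    have h4 : x = (z.re ^ 2 + z.im ^ 2)⁻¹ • (z.re • a + z.im • b) := by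
      rw [← h3, inv_smul_smul₀ hn]
    rw [h4, div_eq_inv_mul, div_eq_inv_mul]
    module
  · rw [r1, r2, ← hy]
    have h3 : (z.re ^ 2 + z.im ^ 2) • y = z.re • b - z.im • a := by
      rw [← e1, ← e2]; module
    have h4 : y = (z.re ^ 2 + z.im ^ 2)⁻¹ • (z.re • b - z.im • a) := by
      rw [← h3, inv_smul_smul₀ hn]
    rw [h4, div_eq_inv_mul, div_eq_inv_mul]
    module

end inverse

section sys

variable {X E : Type*} [MetricSpace X] [CompactSpace X] [NormedAddCommGroup E]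
  [InnerProductSpace ℝ E] [FiniteDimensional ℝ E] {S : HypSys X E}

theorem retS_pow (k : ℕ) (p : X) (hp : S.g^[k] p = p) (q : ℕ) (v : S.Vu p) :
    ((retS S k p hp ^ q) v : E) = Dn S (k * q) p v := by
  induction q generalizing v with
  | zero => simp
  | succ q ih =>
    rw [pow_succ, Module.End.mul_apply, ih, retS_apply]
    have : k * (q + 1) = k * q + k := by ring
    rw [this, Dn_add, hp]

end sys

section metric

variable {E₀ : Type w} [NormedAddCommGroup E₀] [NormedSpace ℝ E₀] [FiniteDimensional ℝ E₀]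
  {M : Type u} [MetricSpace M] [CompactSpace M] [ChartedSpace E₀ M] [IsManifold 𝓘(ℝ, E₀) ∞ M]
  {F : Type v} [NormedAddCommGroup F] [InnerProductSpace ℝ F] [FiniteDimensional ℝ F]
  {e : M → F} {f : M ≃ₜ M} {Es Eu : M → Submodule ℝ E₀} {C a b Ls Lu : ℝ}

/-- The return maps of the realizing system: the same modulus. -/
theorem eqMod_real (hinj : ∀ x, Function.Injective (dm E₀ e x))
    (h : EAnosov e f Es Eu C a b Ls Lu) {S : HypSys M F} {N : ℕ} (hN : 1 ≤ N)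
    (hS : Realizes S e f Es Eu N) (hP : PerDis f Eu) (hrk : ∀ x, Module.finrank ℝ (S.Vu x) = 2)
    (k : ℕ) (p : M) (hp : S.g^[k] p = p) (hk : 1 ≤ k) : EqMod (retS S k p hp) := by
  refine eqMod_of_sub (hrk p) _ fun κ hκ => ?_
  obtain ⟨r0, r1⟩ := root_pow hk (show (0:ℝ) < κ by linarith)
  have hκ' : 1 < κ ^ ((k : ℝ)⁻¹) := lt_root hk (by linarith) (by rw [one_pow]; exact hκ)
  obtain ⟨A, hA⟩ := per_qa hinj h hN hS hP p k hk hp _ hκ'
  refine ⟨A, fun q v w => ?_⟩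
  have h1 := hA q v v.2 w w.2
  rw [← retS_pow k p hp, ← retS_pow k p hp, pow_mul, r1] at h1
  exact h1

theorem vu_mem {S : HypSys M F} {N : ℕ} (hS : Realizes S e f Es Eu N) {p : M} {x : F}
    (hx : x ∈ S.Vu p) : ∃ v ∈ Eu p, dm E₀ e p v = x := by
  rw [hS.Vu_eq] at hx
  exact hx

/-- The return maps of the realizing system: bounded distortion. -/
theorem ssm_real (hinj : ∀ x, Function.Injective (dm E₀ e x))
    (h : EAnosov e f Es Eu C a b Ls Lu) {S : HypSys M F} {N : ℕ} (hN : 1 ≤ N)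
    (hS : Realizes S e f Es Eu N) (hP : PtN f Eu) (hrk : ∀ x, Module.finrank ℝ (S.Vu x) = 2)
    (k : ℕ) (p : M) (hp : S.g^[k] p = p) (hk : 1 ≤ k) :
    Ell (retS S k p hp) ∨ Sc (retS S k p hp) ∨ Rf (retS S k p hp) := by
  have hp' := hp
  rw [real_iter hS] at hp'
  obtain ⟨A, hA0, hA⟩ := hP (N * k) p (Nat.mul_pos hN hk) hp'
  obtain ⟨R, hR, hR1, hR2⟩ := dm_cmp (e := e) hinj p
  refine ssm_of_bd (hrk p) _ (K := A * R ^ 4) fun q v w => ?_
  obtain ⟨v₀, hv₀, hv1⟩ := vu_mem hS v.2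
  obtain ⟨w₀, hw₀, hw1⟩ := vu_mem hS w.2
  change ‖((retS S k p hp ^ q) v : F)‖ * ‖(w : F)‖ ≤
    A * R ^ 4 * (‖((retS S k p hp ^ q) w : F)‖ * ‖(v : F)‖)
  rw [retS_pow, retS_pow, ← hv1, ← hw1]
  rw [Dn_dm' h hS, Dn_dm' h hS]
  have e1 : N * (k * q) = N * k * q := by ring
  have e2 : f^[N * (k * q)] p = p := by rw [e1]; exact iter_per hp' q
  rw [e2, e1]
  have h1 := hA q v₀ hv₀ w₀ hw₀
  set V := dg E₀ (f^[N * k * q]) p v₀
  set W := dg E₀ (f^[N * k * q]) p w₀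
  calc ‖dm E₀ e p V‖ * ‖dm E₀ e p w₀‖ ≤ (R * ‖V‖) * (R * ‖w₀‖) :=
        mul_le_mul (hR1 V) (hR1 w₀) (norm_nonneg _) (by positivity)
    _ = R ^ 2 * (‖V‖ * ‖w₀‖) := by ring
    _ ≤ R ^ 2 * (A * (‖W‖ * ‖v₀‖)) := mul_le_mul_of_nonneg_left h1 (by positivity)
    _ ≤ R ^ 2 * (A * ((R * ‖dm E₀ e p W‖) * (R * ‖dm E₀ e p v₀‖))) := by
        apply mul_le_mul_of_nonneg_left _ (by positivity)
        apply mul_le_mul_of_nonneg_left _ hA0
        exact mul_le_mul (hR2 W) (hR2 v₀) (norm_nonneg _) (by positivity)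
    _ = _ := by ring

/-- The return maps of the realizing system: a non-real eigenvalue. -/
theorem ell_real (h : EAnosov e f Es Eu C a b Ls Lu) {S : HypSys M F} {N : ℕ}
    (hinj : ∀ x, Function.Injective (dm E₀ e x))
    (hS : Realizes S e f Es Eu N) (hrk : ∀ x, Module.finrank ℝ (S.Vu x) = 2) {k : ℕ} {p : M}
    {z : ℂ} (hk : 1 ≤ k) (hp : f^[k] p = p) (hz : (z ^ N).im ≠ 0) {a' b' : E₀} (ha : a' ∈ Eu p)
    (hb : b' ∈ Eu p) (hab : a' ≠ 0 ∨ b' ≠ 0) (h1 : dg E₀ (f^[k]) p a' = z.re • a' - z.im • b')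
    (h2 : dg E₀ (f^[k]) p b' = z.im • a' + z.re • b') :
    ∃ (k : ℕ) (p : M) (hp : S.g^[k] p = p), 1 ≤ k ∧ Ell (retS S k p hp) := by
  have hNk : f^[N * k] p = p := by
    rw [mul_comm]; exact iter_per hp N
  have hp' : S.g^[k] p = p := by rw [real_iter hS]; exact hNk
  have hpow : ∀ j : ℕ, dg E₀ (f^[k * j]) p a' = (z ^ j).re • a' - (z ^ j).im • b' ∧
      dg E₀ (f^[k * j]) p b' = (z ^ j).im • a' + (z ^ j).re • b' := by
    intro j
    induction j with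
    | zero =>
      have e0 : ∀ v : E₀, dg E₀ (f^[k * 0]) p v = v := by
        intro v
        show mfderiv 𝓘(ℝ, E₀) 𝓘(ℝ, E₀) id p v = v
        rw [mfderiv_id]
        rfl
      rw [e0, e0]
      simp
    | succ j ih =>
      obtain ⟨i1, i2⟩ := ih
      have hc : ∀ v : E₀, dg E₀ (f^[k * (j + 1)]) p v =
          dg E₀ (f^[k * j]) p (dg E₀ (f^[k]) p v) := by
        intro v
        have e1 : f^[k * (j + 1)] = f^[k * j] ∘ f^[k] := by
          rw [← Function.iterate_add]; rfl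
        rw [e1, dg_comp _ _ (iter_smooth f h.smooth k) (iter_smooth f h.smooth (k * j)), hp]
      rw [hc, hc, h1, h2]
      rw [map_sub, map_smul, map_smul, _root_.map_add, map_smul, map_smul, i1, i2, pow_succ,
        Complex.mul_re, Complex.mul_im]
      constructor
      · module
      · module
  obtain ⟨j1, j2⟩ := hpow N
  have hm : ∀ v ∈ Eu p, dm E₀ e p v ∈ S.Vu p := by
    intro v hv
    rw [hS.Vu_eq]
    exact ⟨v, hv, rfl⟩
  refine ⟨k, p, hp', hk, ell_of_complex (hrk p) _ (z ^ N) hz ⟨dm E₀ e p a', hm a' ha⟩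
    ⟨dm E₀ e p b', hm b' hb⟩ ?_ ?_ ?_⟩
  · rcases hab with h | h
    · left
      intro h0
      have : dm E₀ e p a' = 0 := congrArg Subtype.val h0
      exact h (hinj p (by rw [this, map_zero]))
    · right
      intro h0
      have : dm E₀ e p b' = 0 := congrArg Subtype.val h0
      exact h (hinj p (by rw [this, map_zero]))
  · apply Subtype.ext
    rw [retS_apply]
    change Dn S k p (dm E₀ e p a') = (z ^ N).re • dm E₀ e p a' - (z ^ N).im • dm E₀ e p b'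
    rw [Dn_dm' h hS, hNk, mul_comm N k, j1, map_sub, map_smul, map_smul]
  · apply Subtype.ext
    rw [retS_apply]
    change Dn S k p (dm E₀ e p b') = (z ^ N).im • dm E₀ e p a' + (z ^ N).re • dm E₀ e p b'
    rw [Dn_dm' h hS, hNk, mul_comm N k, j2, _root_.map_add, map_smul, map_smul]

/-- Quasiconformality of the realizing system gives quasiconformality. -/
theorem uni_qc (h : EAnosov e f Es Eu C a b Ls Lu) {S : HypSys M F} {n : ℕ} (hn : 1 ≤ n)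
    (hS : Realizes S e f Es Eu n) {K : ℝ} (hK : QC S K) : ∃ A : ℝ, 0 ≤ A ∧ ∀ (m : ℕ) (x : M),
    ∀ v ∈ Eu x, ∀ w ∈ Eu x,
    ‖dm E₀ e (f^[m] x) (dg E₀ (f^[m]) x v)‖ * ‖dm E₀ e x w‖ ≤
      A * (‖dm E₀ e (f^[m] x) (dg E₀ (f^[m]) x w)‖ * ‖dm E₀ e x v‖) := by
  have hC1 := h.C_pos
  have hLu1 := h.Lu_le
  have hC0 : 0 < C := by linarith
  refine ⟨C * Lu ^ n * |K| * C, by positivity, ?_⟩
  intro m x v hv w hw
  obtain ⟨k, j, hj, hm⟩ : ∃ k j : ℕ, j < n ∧ m = j + n * k :=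
    ⟨m / n, m % n, Nat.mod_lt _ (by omega), (Nat.mod_add_div m n).symm⟩
  have hcomp : ∀ u : E₀, dg E₀ (f^[m]) x u =
      dg E₀ (f^[j]) (f^[n * k] x) (dg E₀ (f^[n * k]) x u) := by
    intro u
    have h1 : f^[m] = f^[j] ∘ f^[n * k] := by rw [hm, Function.iterate_add]
    rw [h1, dg_comp _ _ (iter_smooth f h.smooth (n * k)) (iter_smooth f h.smooth j)]
  have hpt : f^[m] x = f^[j] (f^[n * k] x) := by rw [hm, Function.iterate_add_apply]
  set y := f^[n * k] x with hy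
  set V := dg E₀ (f^[n * k]) x v with hV
  set W := dg E₀ (f^[n * k]) x w with hW
  have hVm : V ∈ Eu y := h.mapU (n * k) x v hv
  have hWm : W ∈ Eu y := h.mapU (n * k) x w hw
  have e1 : ‖dm E₀ e (f^[m] x) (dg E₀ (f^[m]) x v)‖ ≤ C * Lu ^ n * ‖dm E₀ e y V‖ := by
    rw [hcomp, hpt]
    refine (h.hU j y V hVm).trans ?_
    have : Lu ^ j ≤ Lu ^ n := pow_le_pow_right₀ hLu1 hj.le
    gcongr
  have e2 : ‖dm E₀ e y W‖ ≤ C * ‖dm E₀ e (f^[m] x) (dg E₀ (f^[m]) x w)‖ := by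
    rw [hcomp, hpt]
    have h1 := h.hU' j (f^[j] y) (dg E₀ (f^[j]) y W) (h.mapU j y W hWm)
    have h2 : f.symm^[j] (f^[j] y) = y := (Function.LeftInverse.iterate f.symm_apply_apply j) y
    have h3 : dg E₀ (f.symm^[j]) (f^[j] y) (dg E₀ (f^[j]) y W) = W :=
      dg_inv (f^[j]) (f.symm^[j]) (iter_smooth f h.smooth j) (iter_smooth f.symm h.smooth' j)
        (fun z => (Function.LeftInverse.iterate f.symm_apply_apply j) z) y W
    rw [h2, h3] at h1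
    refine h1.trans ?_
    have h4 : b ^ j ≤ 1 := pow_le_one₀ h.b_pos.le h.b_lt.le
    have h5 : C * b ^ j ≤ C * 1 := mul_le_mul_of_nonneg_left h4 hC0.le
    rw [mul_one] at h5
    exact mul_le_mul_of_nonneg_right h5 (norm_nonneg _)
  have e3 : ‖dm E₀ e y V‖ * ‖dm E₀ e x w‖ ≤
      |K| * (‖dm E₀ e y W‖ * ‖dm E₀ e x v‖) := by
    have h1 := hK k x (dm E₀ e x v) (by rw [hS.Vu_eq]; exact ⟨v, hv, rfl⟩)
      (dm E₀ e x w) (by rw [hS.Vu_eq]; exact ⟨w, hw, rfl⟩)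
    rw [Dn_dm' h hS, Dn_dm' h hS] at h1
    exact h1.trans (mul_le_mul_of_nonneg_right (le_abs_self _) (by positivity))
  have hLn : 0 ≤ Lu ^ n := by positivity
  calc _ ≤ (C * Lu ^ n * ‖dm E₀ e y V‖) * ‖dm E₀ e x w‖ :=
        mul_le_mul_of_nonneg_right e1 (norm_nonneg _)
    _ = C * Lu ^ n * (‖dm E₀ e y V‖ * ‖dm E₀ e x w‖) := by ring
    _ ≤ C * Lu ^ n * (|K| * (‖dm E₀ e y W‖ * ‖dm E₀ e x v‖)) :=
        mul_le_mul_of_nonneg_left e3 (by positivity)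
    _ ≤ C * Lu ^ n * (|K| * ((C * ‖dm E₀ e (f^[m] x) (dg E₀ (f^[m]) x w)‖) *
        ‖dm E₀ e x v‖)) := by gcongr
    _ = _ := by ring

/-- Quasiconformality for the given norm. -/
theorem uni_norm {N : TangentBundle 𝓘(ℝ, E₀) M → ℝ} (hN : IsTangentNorm N)
    (he1 : ContMDiff 𝓘(ℝ, E₀) 𝓘(ℝ, F) 1 e) (hinj : ∀ x, Function.Injective (dm E₀ e x))
    {A : ℝ} (hA0 : 0 ≤ A) (hA : ∀ (m : ℕ) (x : M), ∀ v ∈ Eu x, ∀ w ∈ Eu x,
      ‖dm E₀ e (f^[m] x) (dg E₀ (f^[m]) x v)‖ * ‖dm E₀ e x w‖ ≤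
        A * (‖dm E₀ e (f^[m] x) (dg E₀ (f^[m]) x w)‖ * ‖dm E₀ e x v‖)) :
    ∃ K : ℝ, ∀ (n : ℕ) (x : M), ∀ v ∈ Eu x, ∀ w ∈ Eu x,
      tnm N (f^[n] x) (dg E₀ (f^[n]) x v) * tnm N x w ≤
        K * (tnm N (f^[n] x) (dg E₀ (f^[n]) x w) * tnm N x v) := by
  obtain ⟨R, hR, hcmp⟩ := tnm_compare hN e he1 hinj
  refine ⟨R ^ 4 * A, fun n x v hv w hw => ?_⟩
  have h1 := hA n x v hv w hw
  have a1 := (hcmp (f^[n] x) (dg E₀ (f^[n]) x v)).2
  have a2 := (hcmp x w).2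
  have a3 := (hcmp (f^[n] x) (dg E₀ (f^[n]) x w)).1
  have a4 := (hcmp x v).1
  have n1 : 0 ≤ tnm N (f^[n] x) (dg E₀ (f^[n]) x v) := tnm_nonneg hN _ _
  have n2 : 0 ≤ tnm N x w := tnm_nonneg hN _ _
  have n3 : 0 ≤ tnm N (f^[n] x) (dg E₀ (f^[n]) x w) := tnm_nonneg hN _ _
  have n4 : 0 ≤ tnm N x v := tnm_nonneg hN _ _
  calc tnm N (f^[n] x) (dg E₀ (f^[n]) x v) * tnm N x w
      ≤ (R * ‖dm E₀ e (f^[n] x) (dg E₀ (f^[n]) x v)‖) * (R * ‖dm E₀ e x w‖) :=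
        mul_le_mul a1 a2 n2 (by positivity)
    _ = R ^ 2 * (‖dm E₀ e (f^[n] x) (dg E₀ (f^[n]) x v)‖ * ‖dm E₀ e x w‖) := by ring
    _ ≤ R ^ 2 * (A * (‖dm E₀ e (f^[n] x) (dg E₀ (f^[n]) x w)‖ * ‖dm E₀ e x v‖)) :=
        mul_le_mul_of_nonneg_left h1 (by positivity)
    _ ≤ R ^ 2 * (A * ((R * tnm N (f^[n] x) (dg E₀ (f^[n]) x w)) *
          (R * tnm N x v))) := by
        apply mul_le_mul_of_nonneg_left _ (by positivity)
        apply mul_le_mul_of_nonneg_left _ hA0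
        exact mul_le_mul a3 a4 (norm_nonneg _) (by positivity)
    _ = _ := by ring

end metric

section manifold

variable {E : Type w} [NormedAddCommGroup E] [NormedSpace ℝ E] [FiniteDimensional ℝ E]
  {M : Type u} [TopologicalSpace M] [T2Space M] [CompactSpace M] [ConnectedSpace M]
  [ChartedSpace E M] [IsManifold 𝓘(ℝ, E) ∞ M]

/-- **Rank two, the unstable bundle.** -/
theorem main_two (f : Diffeomorph 𝓘(ℝ, E) 𝓘(ℝ, E) M M 1)
    (hf2 : ContMDiff 𝓘(ℝ, E) 𝓘(ℝ, E) 2 f) (hf2' : ContMDiff 𝓘(ℝ, E) 𝓘(ℝ, E) 2 f.symm)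
    (Es Eu : ∀ x : M, Submodule ℝ (TangentSpace 𝓘(ℝ, E) x)) (hA : IsAnosov f Es Eu)
    (N : TangentBundle 𝓘(ℝ, E) M → ℝ) (hN : IsTangentNorm N)
    (ds : ℕ) (h2s : 2 ≤ ds) (hds : ∀ x, Module.finrank ℝ (Es x) = ds)
    (hdu : ∀ x, Module.finrank ℝ (Eu x) = 2)
    (h : PtN (E := E) f Eu ∨ (PerDis (E := E) f Eu ∧ NonR (E := E) f Eu)) :
    TopTransitive f ∧ UniformlyQC f N Eu ∧ InfraToral f := by
  have hPD : PerDis (E := E) f Eu := by
    rcases h with h | h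
    · exact h.perDis
    · exact h.1
  have hsubx := sub_of_per_u f hf2 hf2' Es Eu hA N hN hPD
  have htt : TopTransitive f :=
    (man_sub2 f Es Eu hA N hN (Or.inl ⟨fun x => by rw [hdu x], hsubx⟩)).1
  refine ⟨htt, ?_⟩
  have hnw := nw_of_tt f.toHomeomorph htt
  obtain ⟨m, e, he, hemb, hinj⟩ := exists_embedding_euclidean_of_compact (I := 𝓘(ℝ, E)) (M := M)
  let _ : MetricSpace M := hemb.isEmbedding.comapMetricSpace e
  have hiso : ∀ x y : M, dist x y = ‖e x - e y‖ := fun x y => dist_eq_norm (e x) (e y)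
  have he1 : ContMDiff 𝓘(ℝ, E) (𝓡 m) 1 e := he.of_le (by simp)
  have he2 : ContMDiff 𝓘(ℝ, E) (𝓡 m) 2 e := he.of_le (by
    exact_mod_cast (ENat.LEInfty.out : (2 : WithTop ℕ∞) ≤ ∞))
  obtain ⟨C', a, b, Ls, Lu, hE⟩ := eanosov_of_isAnosov e he1 hinj f Es Eu hA
  obtain ⟨K, hK, hang⟩ := hE.angle he1 hinj
  have t1 : Tendsto (fun n : ℕ => K * (C' * a ^ n)) atTop (𝓝 0) := by
    have := ((tendsto_pow_atTop_nhds_zero_of_lt_one hE.a_pos.le hE.a_lt).const_mul C').const_mul K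
    simpa using this
  have t2 : Tendsto (fun n : ℕ => K * (C' * b ^ n)) atTop (𝓝 0) := by
    have := ((tendsto_pow_atTop_nhds_zero_of_lt_one hE.b_pos.le hE.b_lt).const_mul C').const_mul K
    simpa using this
  obtain ⟨n₀, hn₀⟩ := eventually_atTop.mp ((((tendsto_order.mp t1).2 (1 / 16) (by norm_num)).and
    ((tendsto_order.mp t2).2 (1 / 16) (by norm_num))).and (eventually_ge_atTop 1))
  -- the power, adapted to the non-real eigenvalue
  obtain ⟨n, hnn, hz⟩ : ∃ n, n₀ ≤ n ∧ (NonR (E := E) f Eu → ∃ (k : ℕ) (p : M) (z : ℂ), 1 ≤ k ∧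
      f^[k] p = p ∧ (z ^ n).im ≠ 0 ∧ ∃ a ∈ (Eu p : Submodule ℝ E), ∃ b ∈ (Eu p : Submodule ℝ E),
      (a ≠ 0 ∨ b ≠ 0) ∧ dg E (f^[k]) p a = z.re • a - z.im • b ∧
        dg E (f^[k]) p b = z.im • a + z.re • b) := by
    by_cases hR : NonR (E := E) f Eu
    · obtain ⟨k, p, z, hk, hp, hz, rest⟩ := hR
      by_cases h0 : (z ^ n₀).im = 0
      · refine ⟨n₀ + 1, by omega, fun _ => ⟨k, p, z, hk, hp, ?_, rest⟩⟩
        rw [pow_succ, Complex.mul_im, h0, zero_mul, add_zero]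
        refine mul_ne_zero ?_ hz
        intro h1
        have hz0 : z ≠ 0 := fun h => hz (by rw [h]; rfl)
        exact pow_ne_zero n₀ hz0 (Complex.ext h1 h0)
      · exact ⟨n₀, le_rfl, fun _ => ⟨k, p, z, hk, hp, h0, rest⟩⟩
    · exact ⟨n₀, le_rfl, fun h => absurd h hR⟩
  obtain ⟨⟨hn1, hn2⟩, hn3⟩ := hn₀ n hnn
  obtain ⟨S, hS⟩ := exists_realizes hiso he1 hinj hE K hK hang n hn1.le hn2.le
  obtain ⟨Q, r, hQ⟩ := quad_of_realizes hiso he2 hinj hE hf2 hf2' hS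
  have hfin : ∀ (x : M) (V : Submodule ℝ E),
      Module.finrank ℝ (V.map (dm E e x).toLinearMap) = Module.finrank ℝ V := fun x V =>
    (LinearEquiv.finrank_eq (Submodule.equivMapOfInjective (dm E e x).toLinearMap (hinj x) V)).symm
  have hfs : ∀ x, Module.finrank ℝ (S.Vs x) = ds := fun x => by
    rw [hS.Vs_eq, hfin]; exact hds x
  have hfu : ∀ x, Module.finrank ℝ (S.Vu x) = 2 := fun x => by
    rw [hS.Vu_eq, hfin]; exact hdu x
  have hgn : ∀ x, f^[n] x = S.g x := fun x => by rw [hS.g_eq]; rfl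
  have hgk : ∀ (k : ℕ) (x : M), (S.g^[k]) x = f^[n * k] x := by
    intro k x
    rw [hS.g_eq, Function.iterate_mul]
    rfl
  have hne : Nonempty M := inferInstance
  have htr : ∀ U V : Set M, IsOpen U → U.Nonempty → IsOpen V → V.Nonempty →
      ∃ k : ℕ, (S.g^[k] '' U ∩ V).Nonempty := by
    intro U V hU hUn hV hVn
    refine trans_of_nw S (fun O hO hOn => ?_) U V hU hUn hV hVn
    obtain ⟨k, hk, hk'⟩ := nw_pow f f.continuous hnw n hn3 O hO hOn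
    refine ⟨k, hk, ?_⟩
    have e1 : (S.g^[k]) = (f^[n * k]) := funext (hgk k)
    rwa [e1]
  -- slowly growing distortion
  obtain ⟨r0, r1⟩ := root_pow hn3 (show (0:ℝ) < 3 / 2 by norm_num)
  have hκ' : 1 < (3 / 2 : ℝ) ^ ((n : ℝ)⁻¹) :=
    lt_root hn3 (by norm_num) (by rw [one_pow]; norm_num)
  obtain ⟨A, hA'⟩ := uni_dis hiso he2 hinj hE hf2 hf2' 2 hdu hPD _ hκ'
  have hsub : ∀ (k : ℕ) (x : M), QA S k x (|A| * (3 / 2) ^ k) := by
    intro k x v hv w hw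
    rw [hS.Vu_eq] at hv hw
    obtain ⟨v₀, hv₀, rfl⟩ := hv
    obtain ⟨w₀, hw₀, rfl⟩ := hw
    change ‖Dn S k x (dm E e x v₀)‖ * ‖dm E e x w₀‖ ≤
      |A| * (3 / 2) ^ k * (‖Dn S k x (dm E e x w₀)‖ * ‖dm E e x v₀‖)
    rw [Dn_dm' hE hS, Dn_dm' hE hS]
    have h1 := hA' (n * k) x v₀ hv₀ w₀ hw₀
    rw [pow_mul, r1] at h1
    refine h1.trans ?_
    apply mul_le_mul_of_nonneg_right _ (by positivity)
    exact mul_le_mul_of_nonneg_right (le_abs_self A) (by positivity)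
  obtain ⟨K1, hK1⟩ := qc_rank_two S hQ hne htr (abs_nonneg A) hsub hfu (by
    rcases h with h | ⟨h, hR⟩
    · exact Or.inr fun k p hp hk => ssm_real hinj hE hn3 hS h hfu k p hp hk
    · left
      refine ⟨?_, fun k p hp hk => eqMod_real hinj hE hn3 hS h hfu k p hp hk⟩
      obtain ⟨k, p, z, hk, hp, hz, a', ha, b', hb, hab, h1, h2⟩ := hz hR
      exact ell_real hE hinj hS hfu hk hp hz ha hb hab h1 h2)
  obtain ⟨A₁, hA₁0, hA₁⟩ := uni_qc hE hn3 hS hK1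
  obtain ⟨K₂, hK₂⟩ := uni_norm hN he1 hinj hA₁0 hA₁
  refine ⟨⟨K₂, fun k x v hv w hw => hK₂ k x v hv w hw⟩, ?_⟩
  obtain ⟨B₀⟩ := abstract_cs0 S hQ hK1 2 le_rfl hfu htr
  exact abstract_infra (E' := E) S hQ B₀ 2 ds le_rfl h2s hfu hfs f.toHomeomorph n hn3 hgn

/-- Quasiconformality of the inverse. -/
theorem uqc_inv (f : Diffeomorph 𝓘(ℝ, E) 𝓘(ℝ, E) M M 1)
    (N : TangentBundle 𝓘(ℝ, E) M → ℝ) (V : M → Submodule ℝ E)
    (hV : ∀ (n : ℕ) (x : M), ∀ v ∈ V x, dg E (f^[n]) x v ∈ V (f^[n] x))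
    (hP : UniformlyQC (E := E) f.symm N V) : UniformlyQC (E := E) f N V := by
  obtain ⟨m, ee, hee, hemb, hinje⟩ :=
    exists_embedding_euclidean_of_compact (I := 𝓘(ℝ, E)) (M := M)
  let _ : MetricSpace M := hemb.isEmbedding.comapMetricSpace ee
  obtain ⟨K, hK⟩ := hP
  suffices H : ∀ (n : ℕ) (x : M) (v : E), v ∈ V x → ∀ w : E, w ∈ V x →
      tnm N (f^[n] x) (dg E (f^[n]) x v) * tnm N x w ≤
        K * (tnm N (f^[n] x) (dg E (f^[n]) x w) * tnm N x v) from ⟨K, H⟩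
  intro n x v hv w hw
  have h1 : tnm N (f.symm^[n] (f^[n] x)) (dg E (f.symm^[n]) (f^[n] x) (dg E (f^[n]) x w)) *
      tnm N (f^[n] x) (dg E (f^[n]) x v) ≤ K *
      (tnm N (f.symm^[n] (f^[n] x)) (dg E (f.symm^[n]) (f^[n] x) (dg E (f^[n]) x v)) *
        tnm N (f^[n] x) (dg E (f^[n]) x w)) :=
    hK n (f^[n] x) _ (hV n x w hw) _ (hV n x v hv)
  have h2 : f.symm^[n] (f^[n] x) = x := (Function.LeftInverse.iterate f.symm_apply_apply n) x
  have h3 : ∀ v : E, dg E (f.symm^[n]) (f^[n] x) (dg E (f^[n]) x v) = v := fun v =>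
    dg_inv (f^[n]) (f.symm^[n]) (iter_smooth f f.contMDiff n)
      (iter_smooth f.symm f.symm.contMDiff n)
      (fun z => (Function.LeftInverse.iterate f.symm_apply_apply n) z) x v
  rw [h3, h3, h2] at h1
  linarith

/-- A non-real eigenvalue in terms of vectors. -/
theorem nonR_of (f : M → M) (V : M → Submodule ℝ E) (h : ∃ (k : ℕ) (p : M) (z : ℂ), 1 ≤ k ∧
    f^[k] p = p ∧ ReturnEigenvalue (E := E) f V k p z ∧ z.im ≠ 0) : NonR (E := E) f V := by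
  obtain ⟨k, p, z, hk, hp, ⟨T, hT, hz⟩, him⟩ := h
  obtain ⟨a, b, hab, h1, h2⟩ := root_lin T z hz
  have e1 := congrArg (fun u : (V p : Submodule ℝ E) => (u : E)) h1
  have e2 := congrArg (fun u : (V p : Submodule ℝ E) => (u : E)) h2
  refine ⟨k, p, z, hk, hp, him, a, a.2, b, b.2, ?_, ?_, ?_⟩
  · rcases hab with h | h
    · exact Or.inl fun h0 => h (Subtype.ext h0)
    · exact Or.inr fun h0 => h (Subtype.ext h0)
  · exact (hT a).symm.trans e1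
  · exact (hT b).symm.trans e2

/-- **Rank two, either bundle.** -/
theorem main_V (f : Diffeomorph 𝓘(ℝ, E) 𝓘(ℝ, E) M M 1)
    (hf2 : ContMDiff 𝓘(ℝ, E) 𝓘(ℝ, E) 2 f) (hf2' : ContMDiff 𝓘(ℝ, E) 𝓘(ℝ, E) 2 f.symm)
    (Es Eu : ∀ x : M, Submodule ℝ (TangentSpace 𝓘(ℝ, E) x)) (hA : IsAnosov f Es Eu)
    (N : TangentBundle 𝓘(ℝ, E) M → ℝ) (hN : IsTangentNorm N)
    (h2s : ∀ x, 2 ≤ Module.finrank ℝ (Es x)) (h2u : ∀ x, 2 ≤ Module.finrank ℝ (Eu x))
    (V : ∀ x : M, Submodule ℝ (TangentSpace 𝓘(ℝ, E) x)) (hV : V = Es ∨ V = Eu)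
    (h2 : ∀ x, Module.finrank ℝ (V x) = 2)
    (h : PtDist (E := E) f N V ∨ (OneModulus (E := E) f V ∧ ∃ (k : ℕ) (p : M) (z : ℂ), 1 ≤ k ∧
      f^[k] p = p ∧ ReturnEigenvalue (E := E) f V k p z ∧ z.im ≠ 0)) :
    TopTransitive f ∧ UniformlyQC f N V ∧ InfraToral f := by
  have hne : Nonempty M := inferInstance
  obtain ⟨x₀⟩ := hne
  obtain ⟨Du, hDu⟩ := man_rank f Es Eu hA
  obtain ⟨Ds, hDs⟩ := man_rank f.symm Eu Es (anosov_symm f Es Eu hA)
  have hDu2 : 2 ≤ Du := by rw [← hDu x₀]; exact h2u x₀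
  have hDs2 : 2 ≤ Ds := by rw [← hDs x₀]; exact h2s x₀
  rcases hV with rfl | rfl
  · -- the stable bundle
    have key : PtN (E := E) f.symm V ∨
        (PerDis (E := E) f.symm V ∧ NonR (E := E) f.symm V) := by
      obtain ⟨m, ee, hee, hemb, hinje⟩ :=
        exists_embedding_euclidean_of_compact (I := 𝓘(ℝ, E)) (M := M)
      let _ : MetricSpace M := hemb.isEmbedding.comapMetricSpace ee
      have he1 : ContMDiff 𝓘(ℝ, E) (𝓡 m) 1 ee := hee.of_le (by simp)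
      obtain ⟨C, a, b, Ls, Lu, hE⟩ := eanosov_of_isAnosov ee he1 hinje f V Eu hA
      have hsm : ContMDiff 𝓘(ℝ, E) 𝓘(ℝ, E) 1 f.toHomeomorph := f.contMDiff
      have hsm' : ContMDiff 𝓘(ℝ, E) 𝓘(ℝ, E) 1 f.toHomeomorph.symm := f.symm.contMDiff
      let Es' : M → Submodule ℝ E := V
      rcases h with h | ⟨h, h'⟩
      · left
        have h1 : PtN f.toHomeomorph Es' := pt_norm f N hN V h
        exact ptN_symm hsm hsm' hE.mapS' h1
      · right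
        have h2 : NonR f.toHomeomorph Es' := nonR_of f V h'
        exact ⟨(perDis_of f V Eu hA).2 h, nonR_symm hsm hsm' hE.mapS' h2⟩
    obtain ⟨-, k2, k3⟩ := main_two f.symm hf2' hf2 Eu V (anosov_symm f V Eu hA) N hN Du hDu2 hDu
      h2 key
    refine ⟨?_, uqc_inv f N V (inv_bundles f V Eu hA).2 k2, InfraToral.inv f.toHomeomorph k3⟩
    have hsub := sub_of_per_u f.symm hf2' hf2 Eu V (anosov_symm f V Eu hA) N hN (by
      rcases key with h | h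
      · exact h.perDis
      · exact h.1)
    exact (man_sub2 f V Eu hA N hN (Or.inr ⟨fun x => by rw [h2 x], hsub⟩)).1
  · -- the unstable bundle
    refine main_two f hf2 hf2' Es V hA N hN Ds hDs2 hDs h2 ?_
    rcases h with h | ⟨h, h'⟩
    · exact Or.inl (pt_norm f N hN V h)
    · exact Or.inr ⟨(perDis_of f Es V hA).1 h, nonR_of f V h'⟩

end manifold

end Pool.Agent.D0H55.RC
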