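import Pool.Agent.D0H55.RC.Cmp
import Pool.Agent.D0H55.RC.Lin

set_option autoImplicit false
set_option linter.unusedSectionVars false

/-!
# Rank two: distortion of the return maps near a fixed periodic point
-/

namespace Pool.Agent.D0H55.RC

open Pool.Agent.H721R2 Pool.Agent.H779R2.An Pool.Agent.H779R2.An.TauAux Pool.Agent.Y321.PD
  Pool.Agent.H789R2.AN Pool.Agent.Y321.PJ
open Filter Topology Set Metric

section top

variable {X E : Type*} [MetricSpace X] [NormedAddCommGroup E] [NormedSpace ℝ E]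

/-- Orbit segments which are close are exponentially close in the middle. -/
theorem exp_close {g : X ≃ₜ X} {c : ℝ} (h : LP g c) : ∃ ρ > 0, ∀ (n : ℕ) (x p : X),
    (∀ i ≤ n, dist (g^[i] x) (g^[i] p) ≤ ρ) →
    ∀ i ≤ n, dist (g^[i] x) (g^[i] p) ≤ c * (1 / 2) ^ i + c * (1 / 2) ^ (n - i) := by
  have hc := h.c_pos
  obtain ⟨δ, hδ, hlp⟩ := h.lp (c / 2) (by linarith)
  refine ⟨min (δ / 2) (c / 2), lt_min (by positivity) (by positivity), fun n x p hclose => ?_⟩
  have h3 : dist (g^[n] p) (g^[n] x) < δ := by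
    have h1 := hclose n le_rfl
    have h2 : min (δ / 2) (c / 2) ≤ δ / 2 := min_le_left _ _
    rw [dist_comm]
    linarith
  obtain ⟨z', hz'1, hz'2⟩ := hlp _ _ h3
  have hz'3 := h.cU _ _ (hz'2.mono (by linarith))
  have eback : ∀ (y : X) (i : ℕ), i ≤ n → g^[i] (g.symm^[n] y) = g.symm^[n - i] y := by
    intro y i hi
    have : g.symm^[n] y = g.symm^[i] (g.symm^[n - i] y) := by
      rw [← Function.iterate_add_apply]; congr 1; omega
    rw [this, iterR]
  have eback' : ∀ (y : X) (i : ℕ), i ≤ n → g.symm^[n - i] (g^[n] y) = g^[i] y := by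
    intro y i hi
    have : g^[n] y = g^[n - i] (g^[i] y) := by
      rw [← Function.iterate_add_apply]; congr 1; omega
    rw [this, iterL]
  have hSR : SR g c p (g.symm^[n] z') := by
    intro k
    rcases le_total k n with hk | hk
    · rw [eback _ _ hk]
      have h4 := hz'2 (n - k)
      rw [eback' _ _ hk] at h4
      have h5 := (hclose k hk).trans (min_le_right _ _)
      have := dist_triangle (g^[k] p) (g^[k] x) (g.symm^[n - k] z')
      rw [dist_comm (g^[k] x) (g^[k] p)] at h5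
      linarith
    · have h4 := hz'1 (k - n)
      have e1 : g^[k - n] (g^[n] p) = g^[k] p := by
        rw [← Function.iterate_add_apply]; congr 1; omega
      have e2 : g^[k] (g.symm^[n] z') = g^[k - n] z' := by
        have : g^[k] (g.symm^[n] z') = g^[k - n] (g^[n] (g.symm^[n] z')) := by
          rw [← Function.iterate_add_apply g (k - n) n]; congr 1; omega
        rw [this, iterR]
      rw [e1] at h4
      rw [e2]
      linarith
  intro i hi
  have h4 := h.cS _ _ hSR i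
  rw [eback _ _ hi] at h4
  have h5 := hz'3 (n - i)
  rw [eback' _ _ hi] at h5
  have := dist_triangle (g^[i] x) (g.symm^[n - i] z') (g^[i] p)
  rw [dist_comm (g.symm^[n - i] z') (g^[i] p)] at this
  linarith

/-- Every orbit segment is shadowed by a piece of a periodic orbit which starts near a given
point. -/
theorem visit [CompactSpace X] (S : HypSys X E) (hne : Nonempty X)
    (htr : ∀ U V : Set X, IsOpen U → U.Nonempty → IsOpen V → V.Nonempty →
      ∃ n : ℕ, (S.g^[n] '' U ∩ V).Nonempty) (p₀ : X) (c ρ : ℝ) (hc : 0 < c) (hρ : 0 < ρ) :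
    ∃ N₀ : ℕ, ∀ (x : X) (n : ℕ), ∃ (t m : ℕ) (q : X), t ≤ N₀ ∧ m ≤ N₀ ∧ 1 ≤ t + n + m ∧
      S.g^[t + n + m] q = q ∧ dist q p₀ ≤ ρ ∧
      ∀ i ≤ n, dist (S.g^[i] x) (S.g^[i] (S.g^[t] q)) ≤ c * (1 / 2) ^ i + c * (1 / 2) ^ (n - i) := by
  obtain ⟨c₀, hc₀, hLP⟩ := exists_LP_small S
  obtain ⟨δ₁, hδ₁, hclo⟩ := closing_small S hne htr
  set c' := min c₀ (min (c / 2) (ρ / 4)) with hc'
  have hc'0 : 0 < c' := lt_min hc₀ (lt_min (by positivity) (by positivity))
  have hc'1 : c' ≤ c₀ := min_le_left _ _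
  have hc'2 : c' ≤ c / 2 := (min_le_right _ _).trans (min_le_left _ _)
  have hc'3 : c' ≤ ρ / 4 := (min_le_right _ _).trans (min_le_right _ _)
  set δ := min δ₁ (min (c / 2) (ρ / 8)) with hδd
  have hδ0 : 0 < δ := lt_min hδ₁ (lt_min (by positivity) (by positivity))
  have hδ2 : δ ≤ c / 2 := (min_le_right _ _).trans (min_le_left _ _)
  have hδ3 : δ ≤ ρ / 8 := (min_le_right _ _).trans (min_le_right _ _)
  obtain ⟨N, hN⟩ := hclo δ hδ0 (min_le_left _ _)
  have h := hLP c' hc'0 hc'1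
  obtain ⟨δ', hδ', hlp⟩ := h.lp c' hc'0
  obtain ⟨K, hK⟩ := minAtt_trans_unif h (minAtt_univ h hne htr)
    (ε := min δ' (ρ / 4)) (lt_min hδ' (by positivity))
  refine ⟨max K N, fun x n => ?_⟩
  obtain ⟨k, hk1, hkK, w, hw1, hw2⟩ := hK p₀ (mem_univ _) x (mem_univ _)
  obtain ⟨z, hz1, hz2⟩ := hlp x (S.g^[k] w) (by
    rw [dist_comm]
    exact lt_of_lt_of_le hw2 (min_le_left _ _))
  have hz1' := h.cS _ _ hz1
  have hz2' := hz2 k
  rw [iterL] at hz2'
  set y := S.g.symm^[k] z with hy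
  have hyz : S.g^[k] y = z := iterR _ _ _
  obtain ⟨m, hm, q, hq1, hq2, hq3⟩ := hN y (k + n)
  refine ⟨k, m, q, hkK.trans (le_max_left _ _), hm.trans (le_max_right _ _), hq1, hq2, ?_, ?_⟩
  · have h0 := hq3 0 (Nat.zero_le _)
    simp only [Function.iterate_zero, id_eq, pow_zero, mul_one, Nat.sub_zero] at h0
    have u2 : ((1:ℝ) / 2) ^ (k + n) ≤ 1 := pow_le_one₀ (by norm_num) (by norm_num)
    have h1 : dist y q ≤ 2 * δ := by nlinarith
    have h2 : dist w p₀ < ρ / 4 := lt_of_lt_of_le hw1 (min_le_right _ _)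
    have h4 := dist_triangle4 q y w p₀
    rw [dist_comm q y, dist_comm y w] at h4
    linarith
  · intro i hi
    have h1 := hz1' i
    have h2 := hq3 (i + k) (by omega)
    have e1 : S.g^[i + k] y = S.g^[i] z := by
      rw [Function.iterate_add_apply, hyz]
    have e2 : S.g^[i + k] q = S.g^[i] (S.g^[k] q) := Function.iterate_add_apply _ _ _ _
    have e3 : k + n - (i + k) = n - i := by omega
    rw [e1, e2, e3] at h2
    have h3 := dist_triangle (S.g^[i] x) (S.g^[i] z) (S.g^[i] (S.g^[k] q))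
    have h4 : ((1:ℝ) / 2) ^ (i + k) ≤ (1 / 2) ^ i :=
      pow_le_pow_of_le_one (by norm_num) (by norm_num) (by omega)
    have p1 : (0:ℝ) < (1 / 2) ^ i := by positivity
    have p2 : (0:ℝ) < (1 / 2) ^ (n - i) := by positivity
    have h5 : δ * (1 / 2 : ℝ) ^ (i + k) ≤ c / 2 * (1 / 2) ^ i := by
      calc δ * (1 / 2 : ℝ) ^ (i + k) ≤ δ * (1 / 2) ^ i := mul_le_mul_of_nonneg_left h4 hδ0.le
        _ ≤ c / 2 * (1 / 2) ^ i := mul_le_mul_of_nonneg_right hδ2 p1.le
    have h6 : c' * (1 / 2 : ℝ) ^ i ≤ c / 2 * (1 / 2) ^ i := mul_le_mul_of_nonneg_right hc'2 p1.le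
    have h7 : δ * (1 / 2 : ℝ) ^ (n - i) ≤ c * (1 / 2) ^ (n - i) :=
      mul_le_mul_of_nonneg_right (by linarith) p2.le
    linarith

end top

section sys

variable {X E : Type*} [MetricSpace X] [CompactSpace X] [NormedAddCommGroup E]
  [InnerProductSpace ℝ E] [FiniteDimensional ℝ E] {S : HypSys X E}

/-- Linear isomorphisms of subspaces which are close to the inclusion. -/
def Nr (η : ℝ) {V V' : Submodule ℝ E} (A : V ≃ₗ[ℝ] V') : Prop :=
  ∀ v : V, ‖(A v : E) - (v : E)‖ ≤ η * ‖(v : E)‖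

theorem exists_equiv {V V' : Submodule ℝ E} (hr : Module.finrank ℝ V = Module.finrank ℝ V')
    (A : E →ₗ[ℝ] E) {η : ℝ} (hη : η < 1) (hA : ∀ v ∈ V, A v ∈ V' ∧ ‖A v - v‖ ≤ η * ‖v‖) :
    ∃ e : V ≃ₗ[ℝ] V', (∀ v : V, (e v : E) = A v) ∧ Nr η e := by
  set f : V →ₗ[ℝ] V' := A.restrict fun v hv => (hA v hv).1 with hf
  have hfv : ∀ v : V, (f v : E) = A v := fun v => rfl
  have hinj : Function.Injective f := by
    rw [← LinearMap.ker_eq_bot, LinearMap.ker_eq_bot']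
    intro v hv
    have h1 := (hA v v.2).2
    have h2 : A (v : E) = 0 := by rw [← hfv, hv]; rfl
    rw [h2, zero_sub, norm_neg] at h1
    have h3 : ‖(v : E)‖ ≤ 0 := by
      by_contra hne
      push Not at hne
      nlinarith
    exact Subtype.ext (norm_le_zero_iff.mp h3)
  refine ⟨f.linearEquivOfInjective hinj hr, fun v => ?_, fun v => ?_⟩
  · rw [LinearMap.linearEquivOfInjective_apply]
    exact hfv v
  · rw [LinearMap.linearEquivOfInjective_apply]
    exact (hA v v.2).2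

theorem Nr.bounds {η : ℝ} {V V' : Submodule ℝ E} {A : V ≃ₗ[ℝ] V'} (h : Nr η A) (v : V) :
    ‖(A v : E)‖ ≤ (1 + η) * ‖(v : E)‖ ∧ (1 - η) * ‖(v : E)‖ ≤ ‖(A v : E)‖ := by
  have h0 := h v
  have h1 := norm_add_le ((A v : E) - v) (v : E)
  rw [sub_add_cancel] at h1
  have h2 := norm_sub_le (A v : E) ((A v : E) - v)
  rw [sub_sub_cancel] at h2
  constructor <;> nlinarith

theorem Nr.symm {η : ℝ} {V V' : Submodule ℝ E} {A : V ≃ₗ[ℝ] V'} (h : Nr η A) (h0 : 0 ≤ η)
    (hη : η ≤ 1 / 2) : Nr (2 * η) A.symm := by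
  intro w
  obtain ⟨v, rfl⟩ := A.surjective w
  rw [LinearEquiv.symm_apply_apply, norm_sub_rev]
  have h1 := h v
  have h2 := (h.bounds v).2
  have h3 : ‖(v : E)‖ ≤ 2 * ‖(A v : E)‖ := by
    have : 0 ≤ ‖(v : E)‖ := norm_nonneg _
    nlinarith
  calc ‖(A v : E) - v‖ ≤ η * ‖(v : E)‖ := h1
    _ ≤ η * (2 * ‖(A v : E)‖) := mul_le_mul_of_nonneg_left h3 h0
    _ = _ := by ring

theorem Nr.trans {η η' : ℝ} {V V' V'' : Submodule ℝ E} {A : V ≃ₗ[ℝ] V'} {A' : V' ≃ₗ[ℝ] V''}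
    (h : Nr η A) (h' : Nr η' A') (h0 : 0 ≤ η') (hη : η ≤ 1) : Nr (η + 2 * η') (A.trans A') := by
  intro v
  rw [LinearEquiv.trans_apply]
  have h1 := h v
  have h2 := h' (A v)
  have h3 := (h.bounds v).1
  have h4 := norm_add_le ((A' (A v) : E) - (A v : E)) ((A v : E) - v)
  rw [sub_add_sub_cancel] at h4
  have h5 : (1 + η) * ‖(v : E)‖ ≤ 2 * ‖(v : E)‖ :=
    mul_le_mul_of_nonneg_right (by linarith) (norm_nonneg _)
  have h6 : η' * ‖(A v : E)‖ ≤ η' * (2 * ‖(v : E)‖) :=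
    mul_le_mul_of_nonneg_left (h3.trans h5) h0
  have : (η + 2 * η') * ‖(v : E)‖ = η' * (2 * ‖(v : E)‖) + η * ‖(v : E)‖ := by ring
  rw [this]
  linarith

theorem Nr.mono {η η' : ℝ} {V V' : Submodule ℝ E} {A : V ≃ₗ[ℝ] V'} (h : Nr η A) (hη : η ≤ η') :
    Nr η' A := fun v => (h v).trans (mul_le_mul_of_nonneg_right hη (norm_nonneg _))

/-- The return map on the unstable space at a periodic point. -/
noncomputable def retS (S : HypSys X E) (k : ℕ) (p : X) (hp : S.g^[k] p = p) :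
    S.Vu p →ₗ[ℝ] S.Vu p :=
  (Dn S k p).restrict fun v hv => by
    have := Dn_mem S k p hv
    rwa [hp] at this

theorem retS_apply (k : ℕ) (p : X) (hp : S.g^[k] p = p) (v : S.Vu p) :
    (retS S k p hp v : E) = Dn S k p v := rfl

/-- Loops near a periodic point `p₀`: a periodic orbit `c` near `p₀`, followed by the orbit of
`p₀`, is shadowed by a periodic orbit, whose return map is the product of the two return maps, up
to small errors. -/
theorem near_loop (S : HypSys X E) {Q r : ℝ} (hQ : Quad S Q r) {B : ℝ} (hB : 0 ≤ B)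
    (hsub : ∀ (n : ℕ) (x : X), QA S n x (B * (3 / 2) ^ n)) {d : ℕ}
    (hrk : ∀ x, Module.finrank ℝ (S.Vu x) = d) {k₀ : ℕ} {p₀ : X} (hk₀ : 1 ≤ k₀)
    (hp₀ : S.g^[k₀] p₀ = p₀) (η : ℝ) (hη : 0 < η) :
    ∃ ρ > 0, ∀ (N : ℕ) (c : X) (hc : S.g^[N] c = c), 1 ≤ N → dist c p₀ ≤ ρ →
      ∃ (c' : X) (hc' : S.g^[N + k₀] c' = c') (J : S.Vu p₀ ≃ₗ[ℝ] S.Vu c)
        (J' : S.Vu p₀ ≃ₗ[ℝ] S.Vu c') (G : S.Vu p₀ →ₗ[ℝ] S.Vu p₀), Nr (1 / 4) J ∧
        (∀ v, ‖G v - retS S k₀ p₀ hp₀ v‖ ≤ η * ‖v‖) ∧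
        J'.symm.conj (retS S (N + k₀) c' hc') = G ∘ₗ J.symm.conj (retS S N c hc) := by
  have hK := S.one_le_K
  have hLu := S.one_le_Lu
  obtain ⟨Pu, hPu⟩ := exists_PD S
  set L := S.Lu ^ k₀ with hL
  have hL1 : 1 ≤ L := one_le_pow₀ hLu
  set η₁ := min (1 / 100) (η / (100 * L)) with hη₁
  have hη₁0 : 0 < η₁ := lt_min (by norm_num) (by positivity)
  have hη₁1 : η₁ ≤ 1 / 100 := min_le_left _ _
  have hη₁2 : 100 * L * η₁ ≤ η := by
    have : η₁ ≤ η / (100 * L) := min_le_right _ _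
    rw [le_div_iff₀ (by positivity)] at this
    linarith
  obtain ⟨c₁, hc₁, hcmp⟩ := compare S hQ hB hsub η₁ hη₁0
  obtain ⟨c₀, hc₀, hLP⟩ := exists_LP_small S
  set γ := min c₀ c₁ with hγ
  have hγ0 : 0 < γ := lt_min hc₀ hc₁
  have h := hLP γ hγ0 (min_le_left _ _)
  obtain ⟨ρ₁, hρ₁, hexp⟩ := exp_close h
  obtain ⟨ε₀, hε₀, hper⟩ := per_shadow S h
  obtain ⟨r₁, hr₁, hnear⟩ := hPu.near η₁ hη₁0
  set ρ := min (min ε₀ (r₁ / 2)) (ρ₁ / (9 * S.K)) with hρ
  have hρ0 : 0 < ρ := lt_min (lt_min hε₀ (by positivity)) (by positivity)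
  have hρε : ρ ≤ ε₀ := (min_le_left _ _).trans (min_le_left _ _)
  have hρr : ρ ≤ r₁ / 2 := (min_le_left _ _).trans (min_le_right _ _)
  have hρK : 9 * S.K * ρ ≤ ρ₁ := by
    have : ρ ≤ ρ₁ / (9 * S.K) := min_le_right _ _
    rw [le_div_iff₀ (by positivity)] at this
    linarith
  have hρK' : ρ ≤ S.K * ρ := by nlinarith
  refine ⟨ρ, hρ0, fun N c hc hN hd => ?_⟩
  -- the pseudo-orbit
  let z : ℕ → X := fun i => if i < N then S.g^[i] c else S.g^[i - N] p₀
  have hz1 : ∀ i, i < N → z i = S.g^[i] c := fun i hi => if_pos hi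
  have hz2 : ∀ i, N ≤ i → z i = S.g^[i - N] p₀ := fun i hi => if_neg (by omega)
  obtain ⟨c', hc', hc'z⟩ := hper ρ hρε (N + k₀) z (by omega) (by
    intro i hi
    rcases lt_trichotomy (i + 1) N with h1 | h1 | h1
    · rw [hz1 i (by omega), hz1 (i + 1) h1, Function.iterate_succ_apply', dist_self]
      exact hρ0.le
    · rw [hz1 i (by omega), hz2 (i + 1) (by omega), ← Function.iterate_succ_apply' S.g i c,
        h1, Nat.sub_self]
      have : S.g^[i.succ] c = S.g^[N] c := by rw [← h1]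
      rw [this, hc]
      exact hd
    · rw [hz2 i (by omega), hz2 (i + 1) (by omega)]
      have : i + 1 - N = (i - N) + 1 := by omega
      rw [this, Function.iterate_succ_apply', dist_self]
      exact hρ0.le) (by
    rw [hz2 (N + k₀ - 1) (by omega), hz1 0 (by omega)]
    have e1 : S.g (S.g^[N + k₀ - 1 - N] p₀) = S.g^[k₀] p₀ := by
      rw [← Function.iterate_succ_apply' S.g]
      congr 2
      omega
    rw [e1, hp₀, dist_comm]
    exact hd)
  set y := S.g^[N] c' with hy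
  have hyk : S.g^[k₀] y = c' := by
    rw [hy, ← Function.iterate_add_apply, add_comm]; exact hc'
  -- shadowing of the two pieces
  have hN0 : dist (S.g^[N] c') p₀ ≤ 8 * S.K * ρ := by
    have := hc'z N (by omega)
    rwa [hz2 N le_rfl, Nat.sub_self] at this
  have hcl1 : ∀ i ≤ N, dist (S.g^[i] c) (S.g^[i] c') ≤ ρ₁ := by
    intro i hi
    rcases lt_or_eq_of_le hi with h1 | h1
    · have := hc'z i (by omega)
      rw [hz1 i h1, dist_comm] at this
      have hKρ : 0 ≤ S.K * ρ := by positivity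
      linarith
    · rw [h1, hc]
      have := dist_triangle c p₀ (S.g^[N] c')
      rw [dist_comm p₀] at this
      linarith
  have hcl2 : ∀ i ≤ k₀, dist (S.g^[i] p₀) (S.g^[i] y) ≤ ρ₁ := by
    intro i hi
    rcases lt_or_eq_of_le hi with h1 | h1
    · have := hc'z (i + N) (by omega)
      rw [hz2 (i + N) (by omega), Nat.add_sub_cancel, Function.iterate_add_apply, dist_comm,
        ← hy] at this
      have hKρ : 0 ≤ S.K * ρ := by positivity
      linarith
    · rw [h1, hp₀, hyk]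
      have h0 := hc'z 0 (by omega)
      rw [hz1 0 (by omega)] at h0
      simp only [Function.iterate_zero, id_eq] at h0
      have := dist_triangle p₀ c c'
      rw [dist_comm p₀ c, dist_comm c c'] at this
      linarith
  have hexp1 := hexp N c c' hcl1
  have hexp2 := hexp k₀ p₀ y hcl2
  obtain ⟨A, A', hA, hA', hAA⟩ := hcmp γ (min_le_right _ _) N c c' hexp1
  obtain ⟨F, F', hF, hF', hFF⟩ := hcmp γ (min_le_right _ _) k₀ p₀ y hexp2
  rw [hc, ← hy] at hA'
  rw [hp₀, hyk] at hF'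
  have hη1 : η₁ < 1 := by linarith
  have rk : ∀ a b : X, Module.finrank ℝ (S.Vu a) = Module.finrank ℝ (S.Vu b) :=
    fun a b => by rw [hrk, hrk]
  obtain ⟨eA, heA, nA⟩ := exists_equiv (rk c c') A hη1 hA
  obtain ⟨eA', heA', nA'⟩ := exists_equiv (rk c y) A' hη1 hA'
  obtain ⟨eF, heF, nF⟩ := exists_equiv (rk p₀ y) F hη1 hF
  obtain ⟨eF', heF', nF'⟩ := exists_equiv (rk p₀ c') F' hη1 hF'
  obtain ⟨J, hJ, nJ⟩ := exists_equiv (rk p₀ c) (Pu c) hη1 (fun v hv =>
    ⟨hPu.mem c v, hnear p₀ c (by rw [dist_comm]; linarith) v hv⟩)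
  set J' := J.trans eA with hJ'
  -- the two corrections
  set P₂ : S.Vu p₀ ≃ₗ[ℝ] S.Vu p₀ := J.trans (eA'.trans eF.symm) with hP₂
  set P₁ : S.Vu p₀ ≃ₗ[ℝ] S.Vu p₀ := eF'.trans J'.symm with hP₁
  set R := retS S k₀ p₀ hp₀ with hR
  set G : S.Vu p₀ →ₗ[ℝ] S.Vu p₀ := (P₁ : S.Vu p₀ →ₗ[ℝ] S.Vu p₀) ∘ₗ R ∘ₗ
    (P₂ : S.Vu p₀ →ₗ[ℝ] S.Vu p₀) with hG
  refine ⟨c', hc', J, J', G, nJ.mono (by linarith), ?_, ?_⟩
  · -- `G` is close to `R`
    have nFs : Nr (2 * η₁) eF.symm := nF.symm hη₁0.le (by linarith)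
    have n1 : Nr (η₁ + 2 * (2 * η₁)) (eA'.trans eF.symm) := nA'.trans nFs (by linarith)
      (by linarith)
    have nP₂ : Nr (η₁ + 2 * (η₁ + 2 * (2 * η₁))) P₂ := nJ.trans n1 (by linarith) (by linarith)
    have nJ' : Nr (η₁ + 2 * η₁) J' := nJ.trans nA hη₁0.le (by linarith)
    have nJs : Nr (2 * (η₁ + 2 * η₁)) J'.symm := nJ'.symm (by linarith) (by linarith)
    have nP₁ : Nr (η₁ + 2 * (2 * (η₁ + 2 * η₁))) P₁ := nF'.trans nJs (by linarith) (by linarith)
    have nP₂' : Nr (13 * η₁) P₂ := nP₂.mono (by linarith)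
    have nP₁' : Nr (13 * η₁) P₁ := nP₁.mono (by linarith)
    intro v
    have hRn : ∀ u : S.Vu p₀, ‖(R u : E)‖ ≤ L * ‖(u : E)‖ := fun u => Dn_le S k₀ p₀ u.2
    have e1 : ((G v - R v : S.Vu p₀) : E) = ((P₁ (R (P₂ v)) : E) - (R (P₂ v) : E)) +
        (R (P₂ v - v) : E) := by
      rw [map_sub]
      push_cast
      have : (G v : E) = (P₁ (R (P₂ v)) : E) := rfl
      rw [this]; abel
    have b1 := nP₁' (R (P₂ v))
    have b2 := (nP₂'.bounds v).1
    have b3 := nP₂' v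
    have b4 := hRn (P₂ v)
    have b5 := hRn (P₂ v - v)
    have e2 : ((P₂ v - v : S.Vu p₀) : E) = (P₂ v : E) - v := rfl
    rw [e2] at b5
    have hv0 : 0 ≤ ‖(v : E)‖ := norm_nonneg _
    have b6 : ‖(P₂ v : E)‖ ≤ 2 * ‖(v : E)‖ := by nlinarith
    have b7 : ‖(R (P₂ v) : E)‖ ≤ L * (2 * ‖(v : E)‖) :=
      b4.trans (mul_le_mul_of_nonneg_left b6 (by linarith))
    have b8 : ‖(P₁ (R (P₂ v)) : E) - (R (P₂ v) : E)‖ ≤ 13 * η₁ * (L * (2 * ‖(v : E)‖)) :=
      b1.trans (mul_le_mul_of_nonneg_left b7 (by linarith))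
    have b9 : ‖(R (P₂ v - v) : E)‖ ≤ L * (13 * η₁ * ‖(v : E)‖) :=
      b5.trans (mul_le_mul_of_nonneg_left b3 (by linarith))
    change ‖((G v - R v : S.Vu p₀) : E)‖ ≤ η * ‖(v : E)‖
    rw [e1]
    have b10 := norm_add_le ((P₁ (R (P₂ v)) : E) - (R (P₂ v) : E)) (R (P₂ v - v) : E)
    have b11 : 13 * η₁ * (L * (2 * ‖(v : E)‖)) + L * (13 * η₁ * ‖(v : E)‖) ≤ η * ‖(v : E)‖ := by
      have e3 : 13 * η₁ * (L * (2 * ‖(v : E)‖)) + L * (13 * η₁ * ‖(v : E)‖) =
        (39 * (L * η₁)) * ‖(v : E)‖ := by ring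
      rw [e3]
      apply mul_le_mul_of_nonneg_right _ hv0
      have : 0 ≤ L * η₁ := by positivity
      linarith
    linarith
  · -- the formula for the return map
    ext v
    congr 1
    apply J'.injective
    have e0 : (G ∘ₗ J.symm.conj (retS S N c hc)) v = P₁ (R (P₂ (J.symm (retS S N c hc (J v))))) :=
      rfl
    rw [e0]
    have e1 : J' (J'.symm.conj (retS S (N + k₀) c' hc') v) = retS S (N + k₀) c' hc' (J' v) := by
      change J' (J'.symm (retS S (N + k₀) c' hc' (J'.symm.symm v))) = _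
      rw [LinearEquiv.apply_symm_apply, LinearEquiv.symm_symm]
    have e2 : ∀ u : S.Vu p₀, J' (P₁ u) = eF' u := by
      intro u
      have : P₁ u = J'.symm (eF' u) := rfl
      rw [this]
      exact J'.apply_symm_apply _
    rw [e1, e2]
    have e3 : ∀ u : S.Vu c, P₂ (J.symm u) = eF.symm (eA' u) := by
      intro u
      have : P₂ (J.symm u) = eF.symm (eA' (J (J.symm u))) := rfl
      rw [this, LinearEquiv.apply_symm_apply]
    rw [e3]
    apply Subtype.ext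
    rw [retS_apply, heF', hR, retS_apply]
    set u := J v with hu
    have e4 : (J' v : E) = A u := by
      rw [hJ', LinearEquiv.trans_apply, heA]
    have e5 : Dn S (N + k₀) c' (J' v) = Dn S k₀ y (Dn S N c' (J' v)) := by
      rw [add_comm N k₀]; exact Dn_add S k₀ N c' _
    rw [e5, e4, hAA u u.2]
    have e6 : (eA' (retS S N c hc u) : E) = A' (Dn S N c u) := by
      rw [heA']; rfl
    rw [← e6]
    set w := eA' (retS S N c hc u) with hw
    have e7 := hFF (eF.symm w) (eF.symm w).2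
    rw [← heF, LinearEquiv.apply_symm_apply] at e7
    exact e7

end sys

end Pool.Agent.D0H55.RC
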