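import Pool.Agent.Q192.PK.ManD
import Pool.Agent.D0H55.RC.Abs

set_option autoImplicit false
set_option linter.unusedSectionVars false

/-!
# Distortion of the powers of a linear map of a plane
-/

namespace Pool.Agent.D0H55.RC

open Filter Topology Polynomial
open Pool.Agent.Q192.PK (root_lin lin_dist)

variable {W : Type*} [NormedAddCommGroup W] [NormedSpace ℝ W] [FiniteDimensional ℝ W]

theorem charpoly_two (h2 : Module.finrank ℝ W = 2) (T : W →ₗ[ℝ] W) :
    T.charpoly = X ^ 2 - C (LinearMap.trace ℝ W T) * X + C (LinearMap.det T) := by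
  let B : Module.Basis (Fin 2) ℝ W := Module.finBasisOfFinrankEq ℝ W h2
  rw [← LinearMap.charpoly_toMatrix T B, Matrix.charpoly_fin_two,
    LinearMap.trace_eq_matrix_trace ℝ B T, LinearMap.det_toMatrix B T]

theorem cayley_two (h2 : Module.finrank ℝ W = 2) (T : W →ₗ[ℝ] W) (v : W) :
    T (T v) = LinearMap.trace ℝ W T • T v - LinearMap.det T • v := by
  have h := LinearMap.aeval_self_charpoly T
  rw [charpoly_two h2 T] at h
  have h3 := LinearMap.congr_fun h v
  simp only [map_add, map_sub, map_mul, map_pow, aeval_X, aeval_C, LinearMap.add_apply,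
    LinearMap.sub_apply, Module.algebraMap_end_apply, Module.End.mul_apply, pow_two,
    LinearMap.zero_apply] at h3
  have h4 : T (T v) - LinearMap.trace ℝ W T • T v + LinearMap.det T • v = 0 := by
    simpa using h3
  rw [← sub_eq_zero, ← h4]
  abel

/-- Real eigenvalues. -/
theorem real_roots (h2 : Module.finrank ℝ W = 2) (T : W →ₗ[ℝ] W)
    (h : 4 * LinearMap.det T ≤ (LinearMap.trace ℝ W T) ^ 2) : ∃ a b : ℝ,
      a + b = LinearMap.trace ℝ W T ∧ a * b = LinearMap.det T ∧
      (T.charpoly.map (algebraMap ℝ ℂ)).IsRoot (a : ℂ) ∧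
      (T.charpoly.map (algebraMap ℝ ℂ)).IsRoot (b : ℂ) := by
  set t := LinearMap.trace ℝ W T with ht
  set d := LinearMap.det T with hd
  have hs : √(t ^ 2 - 4 * d) ^ 2 = t ^ 2 - 4 * d := Real.sq_sqrt (by linarith)
  set s := √(t ^ 2 - 4 * d) with hsd
  have hr : ∀ a : ℝ, a ^ 2 - t * a + d = 0 →
      (T.charpoly.map (algebraMap ℝ ℂ)).IsRoot (a : ℂ) := by
    intro a ha
    rw [charpoly_two h2 T, ← ht, ← hd, IsRoot, eval_map_algebraMap]
    simp only [map_add, map_sub, map_mul, map_pow, aeval_X, aeval_C, Complex.coe_algebraMap]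
    exact_mod_cast ha
  refine ⟨(t + s) / 2, (t - s) / 2, by ring, ?_, hr _ ?_, hr _ ?_⟩
  · nlinarith
  · nlinarith
  · nlinarith

/-- Subexponential distortion of the powers: the eigenvalues have the same modulus. -/
theorem abs_eq_of (T : W →ₗ[ℝ] W) (hd : ∀ κ : ℝ, 1 < κ → ∃ A : ℝ, ∀ q, BD (A * κ ^ q) (T ^ q))
    {z w : ℂ} (hz : (T.charpoly.map (algebraMap ℝ ℂ)).IsRoot z)
    (hw : (T.charpoly.map (algebraMap ℝ ℂ)).IsRoot w) : ‖z‖ = ‖w‖ := by
  have key : ∀ z w : ℂ, (T.charpoly.map (algebraMap ℝ ℂ)).IsRoot z →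
      (T.charpoly.map (algebraMap ℝ ℂ)).IsRoot w → ‖w‖ ≤ ‖z‖ := by
    intro z w hz hw
    have h1 : ∀ κ : ℝ, 1 < κ → ‖w‖ ≤ κ * ‖z‖ := by
      intro κ hκ
      obtain ⟨A, hA⟩ := hd κ hκ
      exact lin_dist T z w hz hw A κ (by positivity) hA
    have h2 : Tendsto (fun κ : ℝ => κ * ‖z‖) (𝓝[>] 1) (𝓝 (1 * ‖z‖)) :=
      (continuous_id.mul continuous_const).continuousWithinAt
    rw [one_mul] at h2
    refine ge_of_tendsto h2 ?_
    filter_upwards [self_mem_nhdsWithin] with κ hκ
    exact h1 κ hκ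
  exact le_antisymm (key w z hw hz) (key z w hz hw)

theorem eqMod_of_sub (h2 : Module.finrank ℝ W = 2) (T : W →ₗ[ℝ] W)
    (hd : ∀ κ : ℝ, 1 < κ → ∃ A : ℝ, ∀ q, BD (A * κ ^ q) (T ^ q)) : EqMod T := by
  unfold EqMod
  by_contra hlt
  push Not at hlt
  have h4 : 4 * LinearMap.det T ≤ (LinearMap.trace ℝ W T) ^ 2 := by
    have := le_abs_self (LinearMap.det T)
    linarith
  obtain ⟨a, b, h5, h6, h7, h8⟩ := real_roots h2 T h4
  have h9 := abs_eq_of T hd h7 h8
  rw [Complex.norm_real, Complex.norm_real, Real.norm_eq_abs, Real.norm_eq_abs] at h9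
  rw [← h5, ← h6] at hlt
  rcases abs_eq_abs.mp h9 with h | h
  · subst h
    rw [abs_of_nonneg (mul_self_nonneg a)] at hlt
    nlinarith
  · subst h
    have : (-b + b) ^ 2 = 0 := by ring
    rw [this] at hlt
    have := abs_nonneg (-b * b)
    linarith

theorem eigen_of_root (T : W →ₗ[ℝ] W) (a : ℝ)
    (h : (T.charpoly.map (algebraMap ℝ ℂ)).IsRoot (a : ℂ)) : ∃ v : W, v ≠ 0 ∧ T v = a • v := by
  obtain ⟨x, y, hxy, h1, h2⟩ := root_lin T a h
  rw [Complex.ofReal_re, Complex.ofReal_im, zero_smul] at h1 h2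
  rw [sub_zero] at h1
  rw [zero_add] at h2
  rcases hxy with h | h
  · exact ⟨x, h, h1⟩
  · exact ⟨y, h, h2⟩

/-- Bounded distortion of the powers. -/
theorem ssm_of_bd (h2 : Module.finrank ℝ W = 2) (T : W →ₗ[ℝ] W) {K : ℝ}
    (hd : ∀ q, BD K (T ^ q)) : Ell T ∨ Sc T ∨ Rf T := by
  by_cases hE : Ell T
  · exact Or.inl hE
  right
  unfold Ell at hE
  push Not at hE
  obtain ⟨a, b, h5, h6, h7, h8⟩ := real_roots h2 T hE
  have hd' : ∀ κ : ℝ, 1 < κ → ∃ A : ℝ, ∀ q, BD (A * κ ^ q) (T ^ q) := by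
    intro κ hκ
    refine ⟨|K|, fun q v w => (hd q v w).trans ?_⟩
    have h1 : 1 ≤ κ ^ q := one_le_pow₀ hκ.le
    apply mul_le_mul_of_nonneg_right _ (by positivity)
    have := le_abs_self K
    have := abs_nonneg K
    nlinarith
  have h9 := abs_eq_of T hd' h7 h8
  rw [Complex.norm_real, Complex.norm_real, Real.norm_eq_abs, Real.norm_eq_abs] at h9
  rcases abs_eq_abs.mp h9 with h | h
  swap
  · -- eigenvalues `-b`, `b`
    subst h
    by_cases hb : b = 0
    · subst hb
      left
      -- both eigenvalues vanish: `T ^ 2 = 0`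
      refine ⟨0, fun v => ?_⟩
      rw [zero_smul]
      by_contra hTv
      have hT2 : T (T v) = 0 := by
        rw [cayley_two h2 T v, ← h5, ← h6]; simp
      have h10 := hd 1 v (T v)
      rw [pow_one, hT2, norm_zero, zero_mul, mul_zero] at h10
      have : 0 < ‖T v‖ := norm_pos_iff.mpr hTv
      nlinarith
    · right
      refine ⟨by rw [← h5]; ring, ?_⟩
      rw [← h6]
      have : 0 < b ^ 2 := by positivity
      nlinarith
  · subst h
    left
    refine ⟨a, fun v => ?_⟩
    by_contra hne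
    -- the nilpotent part
    set u := T v - a • v with hu
    have hu0 : u ≠ 0 := sub_ne_zero.mpr hne
    have hTu : T u = a • u := by
      rw [hu, map_sub, map_smul, cayley_two h2 T v, ← h5, ← h6]
      module
    have hTv : T v = a • v + u := by rw [hu]; abel
    have hpu : ∀ q : ℕ, (T ^ q) u = a ^ q • u := by
      intro q
      induction q with
      | zero => simp
      | succ q ih =>
        rw [pow_succ', Module.End.mul_apply, ih, map_smul, hTu, smul_smul, pow_succ]
    have hpv : ∀ q : ℕ, (T ^ (q + 1)) v = a ^ (q + 1) • v + ((q + 1 : ℝ) * a ^ q) • u := by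
      intro q
      induction q with
      | zero => simp [hTv]
      | succ q ih =>
        rw [pow_succ', Module.End.mul_apply, ih, map_add, map_smul, map_smul, hTv, hTu]
        push_cast
        rw [pow_succ a (q + 1), pow_succ a q]
        module
    have hun : 0 < ‖u‖ := norm_pos_iff.mpr hu0
    by_cases ha : a = 0
    · subst ha
      have h10 := hd 1 v u
      rw [pow_one, hTu, zero_smul, norm_zero, zero_mul, mul_zero, hTv, zero_smul, zero_add] at h10
      nlinarith
    have han : 0 < |a| := abs_pos.mpr ha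
    have hbd : ∀ q : ℕ, (q + 1 : ℝ) * ‖u‖ ≤ (|K| + 1) * |a| * ‖v‖ := by
      intro q
      have h10 := hd (q + 1) v u
      rw [hpu, norm_smul, norm_pow, Real.norm_eq_abs, hpv] at h10
      have h11 : ‖a ^ (q + 1) • v + ((q + 1 : ℝ) * a ^ q) • u‖ ≤ |K| * (|a| ^ (q + 1) * ‖v‖) := by
        have h12 : ‖a ^ (q + 1) • v + ((q + 1 : ℝ) * a ^ q) • u‖ * ‖u‖ ≤
            (|K| * (|a| ^ (q + 1) * ‖v‖)) * ‖u‖ := by
          refine h10.trans ?_
          have : K * (|a| ^ (q + 1) * ‖u‖ * ‖v‖) ≤ |K| * (|a| ^ (q + 1) * ‖u‖ * ‖v‖) :=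
            mul_le_mul_of_nonneg_right (le_abs_self K) (by positivity)
          linarith
        exact le_of_mul_le_mul_right h12 hun
      have h13 := norm_sub_le (a ^ (q + 1) • v + ((q + 1 : ℝ) * a ^ q) • u) (a ^ (q + 1) • v)
      rw [add_sub_cancel_left, norm_smul, norm_smul, norm_mul, norm_pow, norm_pow,
        Real.norm_eq_abs, Real.norm_eq_abs, abs_of_nonneg (by positivity : (0:ℝ) ≤ q + 1)] at h13
      have haq : 0 < |a| ^ q := by positivity
      have h14 : |a| ^ q * ((q + 1 : ℝ) * ‖u‖) ≤ |a| ^ q * ((|K| + 1) * |a| * ‖v‖) := by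
        calc |a| ^ q * ((q + 1 : ℝ) * ‖u‖) = (q + 1 : ℝ) * |a| ^ q * ‖u‖ := by ring
          _ ≤ _ := h13
          _ ≤ |K| * (|a| ^ (q + 1) * ‖v‖) + |a| ^ (q + 1) * ‖v‖ := by linarith
          _ = _ := by rw [pow_succ]; ring
      exact le_of_mul_le_mul_left h14 haq
    obtain ⟨q, hq⟩ := exists_nat_gt ((|K| + 1) * |a| * ‖v‖ / ‖u‖)
    rw [div_lt_iff₀ hun] at hq
    have := hbd q
    nlinarith

/-- No real eigenvectors: non-real eigenvalues. -/
theorem ell_of_noeig (h2 : Module.finrank ℝ W = 2) (T : W →ₗ[ℝ] W)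
    (h : ∀ (c : ℝ) (v : W), T v = c • v → v = 0) : Ell T := by
  by_contra hE
  unfold Ell at hE
  push Not at hE
  obtain ⟨a, b, h5, h6, h7, h8⟩ := real_roots h2 T hE
  obtain ⟨v, hv, hTv⟩ := eigen_of_root T a h7
  exact hv (h a v hTv)

/-- A non-real eigenvalue. -/
theorem ell_of_complex (h2 : Module.finrank ℝ W = 2) (T : W →ₗ[ℝ] W) (z : ℂ) (hz : z.im ≠ 0)
    (a b : W) (hab : a ≠ 0 ∨ b ≠ 0) (h1 : T a = z.re • a - z.im • b)
    (h1' : T b = z.im • a + z.re • b) : Ell T := by
  have hind : LinearIndependent ℝ ![a, b] := by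
    rw [LinearIndependent.pair_iff]
    intro s t hst
    have h3 : s • T a + t • T b = 0 := by
      rw [← map_smul, ← map_smul, ← map_add, hst, map_zero]
    rw [h1, h1'] at h3
    have h4 : (t * z.im) • a - (s * z.im) • b = 0 := by
      have : s • (z.re • a - z.im • b) + t • (z.im • a + z.re • b) =
          z.re • (s • a + t • b) + ((t * z.im) • a - (s * z.im) • b) := by module
      rw [this, hst, smul_zero, zero_add] at h3
      exact h3
    have h5 : t • a - s • b = 0 := by
      have : z.im • (t • a - s • b) = (t * z.im) • a - (s * z.im) • b := by module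
      rw [h4] at this
      exact (smul_eq_zero.mp this).resolve_left hz
    have h6 : (s ^ 2 + t ^ 2) • a = 0 := by
      have : (s ^ 2 + t ^ 2) • a = s • (s • a + t • b) + t • (t • a - s • b) := by module
      rw [this, hst, h5, smul_zero, smul_zero, add_zero]
    have h7 : (s ^ 2 + t ^ 2) • b = 0 := by
      have : (s ^ 2 + t ^ 2) • b = t • (s • a + t • b) - s • (t • a - s • b) := by module
      rw [this, hst, h5, smul_zero, smul_zero, sub_zero]
    have h8 : s ^ 2 + t ^ 2 = 0 := by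
      rcases hab with h | h
      · exact (smul_eq_zero.mp h6).resolve_right h
      · exact (smul_eq_zero.mp h7).resolve_right h
    constructor <;> nlinarith [sq_nonneg s, sq_nonneg t]
  have hspan : Submodule.span ℝ (Set.range ![a, b]) = ⊤ :=
    hind.span_eq_top_of_card_eq_finrank (by rw [h2]; rfl)
  have hsq : ∀ v : W, T (T v) = (2 * z.re) • T v - (z.re ^ 2 + z.im ^ 2) • v := by
    intro v
    have hv : v ∈ Submodule.span ℝ (Set.range ![a, b]) := by rw [hspan]; trivial
    induction hv using Submodule.span_induction with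
    | mem x hx =>
      obtain ⟨i, rfl⟩ := hx
      fin_cases i
      · show T (T a) = (2 * z.re) • T a - (z.re ^ 2 + z.im ^ 2) • a
        rw [h1, map_sub, map_smul, map_smul, h1, h1']
        module
      · show T (T b) = (2 * z.re) • T b - (z.re ^ 2 + z.im ^ 2) • b
        rw [h1', map_add, map_smul, map_smul, h1, h1']
        module
    | zero => simp
    | add x y _ _ hx hy => rw [map_add, map_add, hx, hy]; module
    | smul c x _ hx => rw [map_smul, map_smul, hx]; module
  refine ell_of_noeig h2 T fun c v hv => ?_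
  have h3 := hsq v
  rw [hv, map_smul, hv] at h3
  have h4 : ((c - z.re) ^ 2 + z.im ^ 2) • v = 0 := by
    have : ((c - z.re) ^ 2 + z.im ^ 2) • v =
        c • c • v - ((2 * z.re) • c • v - (z.re ^ 2 + z.im ^ 2) • v) := by module
    rw [this, ← h3, sub_self]
  refine (smul_eq_zero.mp h4).resolve_left ?_
  have : 0 < z.im ^ 2 := by positivity
  nlinarith [sq_nonneg (c - z.re)]

end Pool.Agent.D0H55.RC
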