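import Pool.Agent.Q192.PK.ManE

set_option autoImplicit false
set_option linter.unusedSectionVars false

/-!
# Bounded distortion along each periodic orbit
-/

open scoped Manifold ContDiff Topology Bundle
open Set Filter Bundle

namespace Pool.Agent.D0H55.RC

open Pool.Agent.H721R2 Pool.Agent.H779R2.An Pool.Agent.Y321.PD Pool.Agent.H789R2.AN
  Pool.Agent.Q192.PK

/-- The iterates of the return map at each periodic point have bounded distortion on `V` (the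
bound may depend on the point). -/
def PtDist {E : Type*} [NormedAddCommGroup E] [NormedSpace ℝ E]
    {M : Type*} [TopologicalSpace M] [ChartedSpace E M] (f : M → M)
    (N : TangentBundle 𝓘(ℝ, E) M → ℝ) (V : ∀ x : M, Submodule ℝ (TangentSpace 𝓘(ℝ, E) x)) : Prop :=
  ∀ (k : ℕ) (p : M), 1 ≤ k → f^[k] p = p → ∃ K : ℝ, ∀ q : ℕ, ∀ v ∈ V p, ∀ w ∈ V p,
    N (tangentMap 𝓘(ℝ, E) 𝓘(ℝ, E) (f^[k * q]) ⟨p, v⟩) * N ⟨p, w⟩ ≤
      K * (N (tangentMap 𝓘(ℝ, E) 𝓘(ℝ, E) (f^[k * q]) ⟨p, w⟩) * N ⟨p, v⟩)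

universe u v w

variable {E : Type w} [NormedAddCommGroup E] [NormedSpace ℝ E] [FiniteDimensional ℝ E]
  {M : Type u} [TopologicalSpace M] [T2Space M] [CompactSpace M] [ConnectedSpace M]
  [ChartedSpace E M] [IsManifold 𝓘(ℝ, E) ∞ M]

/-- Bounded distortion at a periodic point, in a fixed norm. -/
theorem pt_norm (f : Diffeomorph 𝓘(ℝ, E) 𝓘(ℝ, E) M M 1)
    (N : TangentBundle 𝓘(ℝ, E) M → ℝ) (hN : IsTangentNorm N)
    (V : M → Submodule ℝ E) (hP : PtDist (E := E) f N V) (k : ℕ) (p : M) (hk : 1 ≤ k)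
    (hp : f^[k] p = p) : ∃ A : ℝ, 0 ≤ A ∧ ∀ q : ℕ, ∀ v ∈ V p, ∀ w ∈ V p,
      ‖dg E (f^[k * q]) p v‖ * ‖w‖ ≤ A * (‖dg E (f^[k * q]) p w‖ * ‖v‖) := by
  obtain ⟨m, ee, hee, hemb, hinje⟩ :=
    exists_embedding_euclidean_of_compact (I := 𝓘(ℝ, E)) (M := M)
  let _ : MetricSpace M := hemb.isEmbedding.comapMetricSpace ee
  have he1 : ContMDiff 𝓘(ℝ, E) (𝓡 m) 1 ee := hee.of_le (by simp)
  obtain ⟨C, hC⟩ := hP k p hk hp
  obtain ⟨R, hR, hcmp⟩ := tnm_compare hN ee he1 hinje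
  obtain ⟨R', hR', c1, c2⟩ := dm_cmp (e := ee) hinje p
  have hR0 : 0 < R := by linarith
  have d1 : ∀ v : E, tnm N p v ≤ (R * R') * ‖v‖ := fun v => by
    calc tnm N p v ≤ R * ‖dm E ee p v‖ := (hcmp p v).2
      _ ≤ R * (R' * ‖v‖) := mul_le_mul_of_nonneg_left (c1 v) hR0.le
      _ = _ := by ring
  have d2 : ∀ v : E, ‖v‖ ≤ (R * R') * tnm N p v := fun v => by
    calc ‖v‖ ≤ R' * ‖dm E ee p v‖ := c2 v
      _ ≤ R' * (R * tnm N p v) := mul_le_mul_of_nonneg_left (hcmp p v).1 hR'.le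
      _ = _ := by ring
  set B := R * R' with hB
  have hB0 : 0 < B := by positivity
  refine ⟨|C| * B ^ 4, by positivity, fun q v hv w hw => ?_⟩
  have h0 : f^[k * q] p = p := iter_per hp q
  have h1 : tnm N (f^[k * q] p) (dg E (f^[k * q]) p v) * tnm N p w ≤
      C * (tnm N (f^[k * q] p) (dg E (f^[k * q]) p w) * tnm N p v) :=
    hC q v hv w hw
  rw [h0] at h1
  set v' := dg E (f^[k * q]) p v
  set w' := dg E (f^[k * q]) p w
  have n1 : 0 ≤ tnm N p v := tnm_nonneg hN _ _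
  have n2 : 0 ≤ tnm N p w := tnm_nonneg hN _ _
  have n3 : 0 ≤ tnm N p v' := tnm_nonneg hN _ _
  have n4 : 0 ≤ tnm N p w' := tnm_nonneg hN _ _
  calc ‖v'‖ * ‖w‖ ≤ (B * tnm N p v') * (B * tnm N p w) :=
        mul_le_mul (d2 v') (d2 w) (norm_nonneg _) (by positivity)
    _ = B ^ 2 * (tnm N p v' * tnm N p w) := by ring
    _ ≤ B ^ 2 * (|C| * (tnm N p w' * tnm N p v)) := by
        apply mul_le_mul_of_nonneg_left _ (by positivity)
        exact h1.trans (mul_le_mul_of_nonneg_right (le_abs_self _) (by positivity))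
    _ ≤ B ^ 2 * (|C| * ((B * ‖w'‖) * (B * ‖v‖))) := by
        apply mul_le_mul_of_nonneg_left _ (by positivity)
        apply mul_le_mul_of_nonneg_left _ (by positivity)
        exact mul_le_mul (d1 w') (d1 v) n1 (by positivity)
    _ = _ := by ring

/-- Bounded distortion along each periodic orbit gives one modulus at the periodic points. -/
theorem one_of_pt (f : Diffeomorph 𝓘(ℝ, E) 𝓘(ℝ, E) M M 1)
    (N : TangentBundle 𝓘(ℝ, E) M → ℝ) (hN : IsTangentNorm N)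
    (V : M → Submodule ℝ E)
    (hV : ∀ (n : ℕ) (x : M), ∀ v ∈ V x, dg E (f^[n]) x v ∈ V (f^[n] x))
    (hP : PtDist (E := E) f N V) :
    OneModulus (E := E) f V := by
  refine one_of_perDis f.contMDiff V hV ?_
  intro k p hk hp κ hκ
  obtain ⟨A, hA, h⟩ := pt_norm f N hN V hP k p hk hp
  refine ⟨A, fun q v hv w hw => (h q v hv w hw).trans ?_⟩
  have : 1 ≤ κ ^ (k * q) := one_le_pow₀ hκ.le
  apply mul_le_mul_of_nonneg_right _ (by positivity)
  nlinarith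

/-- A uniform bound at the periodic points gives bounds along each periodic orbit. -/
theorem pt_of_per (f : Diffeomorph 𝓘(ℝ, E) 𝓘(ℝ, E) M M 1)
    (N : TangentBundle 𝓘(ℝ, E) M → ℝ) (hN : IsTangentNorm N)
    (V : M → Submodule ℝ E) (hP : PerDist (E := E) f N V) : PtDist (E := E) f N V := by
  obtain ⟨K, hK⟩ := hP
  obtain ⟨m, ee, hee, hemb, hinje⟩ :=
    exists_embedding_euclidean_of_compact (I := 𝓘(ℝ, E)) (M := M)
  let _ : MetricSpace M := hemb.isEmbedding.comapMetricSpace ee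
  intro k p hk hp
  refine ⟨max K 1, fun q v hv w hw => ?_⟩
  have n1 : ∀ (x : M) (v : E), 0 ≤ N ⟨x, v⟩ := fun x v => tnm_nonneg hN x v
  have n0 : 0 ≤ N (tangentMap 𝓘(ℝ, E) 𝓘(ℝ, E) (f^[k * q]) ⟨p, w⟩) * N ⟨p, v⟩ :=
    mul_nonneg (n1 _ _) (n1 _ _)
  rcases Nat.eq_zero_or_pos q with h0 | h0
  · subst h0
    have e : ∀ v : E, tangentMap 𝓘(ℝ, E) 𝓘(ℝ, E) (f^[k * 0]) ⟨p, v⟩ = ⟨p, v⟩ := by
      intro v
      rw [mul_zero]
      show tangentMap 𝓘(ℝ, E) 𝓘(ℝ, E) id ⟨p, v⟩ = ⟨p, v⟩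
      rw [tangentMap_id]
      rfl
    have h1 : N ⟨p, v⟩ * N ⟨p, w⟩ ≤ max K 1 * (N ⟨p, w⟩ * N ⟨p, v⟩) := by
      have h2 : 0 ≤ N ⟨p, w⟩ * N ⟨p, v⟩ := mul_nonneg (n1 p w) (n1 p v)
      have h3 : 1 * (N ⟨p, w⟩ * N ⟨p, v⟩) ≤ max K 1 * (N ⟨p, w⟩ * N ⟨p, v⟩) :=
        mul_le_mul_of_nonneg_right (le_max_right _ _) h2
      linarith
    have e1 := e v
    have e2 := e w
    rw [e1, e2]
    exact h1
  · have hkq : 1 ≤ k * q := Nat.mul_pos hk h0
    refine (hK (k * q) p hkq (iter_per hp q) v hv w hw).trans ?_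
    exact mul_le_mul_of_nonneg_right (le_max_left _ _) n0

end Pool.Agent.D0H55.RC
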